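import Pool.Agent.R421.UR.MakA
import Pool.Agent.Y776.Z8.WGT
import Pool.Agent.Y723.Z8.ChrZ

/-!
# Project HF: the hypotheses of the model for weights that are sums of real characters
-/

set_option autoImplicit false
set_option linter.all false

namespace Pool.Agent.R421.HF

open Finset Polynomial Pool.Agent.W262.RK Pool.Agent.W307.RT Pool.Agent.TH841.PT
open Pool.Agent.R421.UR

/-- `X² - κ` is irreducible if `κ` is not a square -/
lemma irr_sq (κ : ℤ) (h : ∀ r : ℤ, r ^ 2 ≠ κ) : Irreducible (X ^ 2 - C κ : ℤ[X]) := by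
  have hm : (X ^ 2 - C κ : ℤ[X]).Monic := monic_X_pow_sub_C κ two_ne_zero
  have hd : (X ^ 2 - C κ : ℤ[X]).natDegree = 2 := natDegree_X_pow_sub_C
  rw [hm.irreducible_iff_roots_eq_zero_of_degree_le_three (by rw [hd]) (by rw [hd]; norm_num)]
  rw [Multiset.eq_zero_iff_forall_notMem]
  intro r hr
  have h1 := (mem_roots'.1 hr).2
  rw [IsRoot.def, eval_sub, eval_pow, eval_X, eval_C, sub_eq_zero] at h1
  exact h r h1

/-- the sums of the real characters are bounded -/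
lemma chrB (κ : ℤ) (h : ∀ r : ℤ, r ^ 2 ≠ κ) (z : ℕ) (hz : 10 ≤ z) :
    ∃ C : ℝ, 0 ≤ C ∧ ∀ y, z < y → |∑ p ∈ PS z y, Jr κ p / (p : ℝ)| ≤ C := by
  obtain ⟨C1, hC10, hC1⟩ := Pool.Agent.TH841.PT.mert (irr_sq κ h)
    (by rw [natDegree_X_pow_sub_C]; norm_num) (z := z) (by omega)
  obtain ⟨C2, hC2⟩ := Pool.Agent.Y776.Z8.mert z hz
  refine ⟨C1 + |C2|, by positivity, fun y hy => ?_⟩
  have h1 := hC1 y hy
  have h2 := (hC2 y hy).trans (le_abs_self C2)
  have h3 : Sp (fun p => (Pool.Agent.H474R2.PG.rho (X ^ 2 - C κ) p : ℝ)) z y =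
      ∑ p ∈ PS z y, (1 : ℝ) / p + ∑ p ∈ PS z y, Jr κ p / (p : ℝ) := by
    unfold Sp
    rw [← sum_add_distrib]
    apply sum_congr rfl
    intro p hp
    unfold PS at hp
    rw [mem_filter, mem_Ioc] at hp
    simp only
    rw [Pool.Agent.Y723.Z8.Chr.rho_eq κ hp.2 (by omega)]
    ring
  rw [h3] at h1
  have h4 := abs_le.1 h1
  have h5 := abs_le.1 h2
  rw [abs_le]
  constructor <;> linarith [h4.1, h4.2, h5.1, h5.2]

lemma Jr_one' (p : ℕ) : Jr 1 p = 1 := by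
  unfold Jr
  rw [jacobiSym.one_left]
  norm_num

variable {J : Type} [Fintype J] [DecidableEq J]

/-- **the hypotheses of the model** -/
theorem mdlG (cls : J → Fin 4) (hcls : ∀ j, cls j ≠ 3) (g : J × Ty → ℕ → ℝ) (c z1 : ℕ)
    (K : Finset ℤ) (P Q : J → ℤ → ℝ) (h1K : (1 : ℤ) ∈ K)
    (hK : ∀ κ ∈ K, κ ≠ 0 ∧ (κ = 1 ∨ ∀ r : ℤ, r ^ 2 ≠ κ))
    (hP0 : ∀ j κ, 0 ≤ P j κ) (hQ0 : ∀ j κ, 0 ≤ Q j κ)
    (hP : ∀ j (p : ℕ), p.Prime → z1 < p → rs g j p = ∑ κ ∈ K, P j κ * Jr κ p)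
    (hQ : ∀ j (p : ℕ), p.Prime → z1 < p →
      ∑ θ : Ty, (if θ 0 = true then -1 else 1) * g (j, θ) p = ∑ κ ∈ K, Q j κ * Jr κ p)
    (hc1 : 1 ≤ c) (hg0 : ∀ i p, 0 ≤ g i p) (hgc : ∀ j p, rs g j p ≤ c) :
    ∃ z0 : ℕ, ∀ z, z0 ≤ z → ∃ C0 E0 : ℝ,
      Mdl cls g (fun j => P j 1) (fun j => (P j 1 + Q j 1) / 2) c z C0 E0 := by
  classical
  refine ⟨z1 + 10 + K.sup Int.natAbs + (2 * c + 2 + Fintype.card (I4 cls) * (8 * c)),
    fun z hz => ?_⟩
  have hKz : ∀ κ ∈ K, κ.natAbs ≤ z := fun κ hκ =>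
    (le_sup (f := Int.natAbs) hκ).trans (by omega)
  -- Mertens
  obtain ⟨CM, hM⟩ := Pool.Agent.Y776.Z8.mert z (by omega)
  -- the characters
  have hch : ∀ κ : ℤ, ∃ C : ℝ, 0 ≤ C ∧ (κ ∈ K → κ ≠ 1 → ∀ y, z < y →
      |∑ p ∈ PS z y, Jr κ p / (p : ℝ)| ≤ C) := by
    intro κ
    by_cases h : κ ∈ K ∧ κ ≠ 1
    · obtain ⟨C, hC0, hC⟩ := chrB κ ((hK κ h.1).2.resolve_left h.2) z (by omega)
      exact ⟨C, hC0, fun _ _ => hC⟩
    · exact ⟨0, le_rfl, fun h1 h2 => absurd ⟨h1, h2⟩ h⟩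
  choose CH hCH0 hCH using hch
  have hub : ∀ κ : ℤ, ∃ C : ℝ, κ ∈ K → ∀ (y r : ℕ) (e : Bool), z < y → 1 < r → Squarefree r →
      (∀ p : ℕ, p.Prime → p ∣ r → z < p) →
      ∑ p ∈ PS z y, Jr p r * Jr κ p * x4 e p / (p : ℝ) ≤ Real.log (Real.log r) + C := by
    intro κ
    by_cases h : κ ∈ K
    · obtain ⟨C, hC⟩ := Pool.Agent.W586.RK.UB.ub κ z (hK κ h).1 (by omega) (hKz κ h)
      exact ⟨C, fun _ => hC⟩
    · exact ⟨0, fun h1 => absurd h1 h⟩
  choose CU hCU using hub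
  -- the constants
  obtain ⟨M, hMd⟩ : ∃ M : ℝ, M = ∑ j, ∑ κ ∈ K, (P j κ + Q j κ) := ⟨_, rfl⟩
  have hPQ0 : ∀ j κ, 0 ≤ P j κ + Q j κ := fun j κ => add_nonneg (hP0 j κ) (hQ0 j κ)
  have hM0 : 0 ≤ M := by
    rw [hMd]
    exact sum_nonneg fun j _ => sum_nonneg fun κ _ => hPQ0 j κ
  have hMj : ∀ j, ∑ κ ∈ K, (P j κ + Q j κ) ≤ M := by
    intro j
    rw [hMd]
    exact single_le_sum (f := fun j => ∑ κ ∈ K, (P j κ + Q j κ))
      (fun j _ => sum_nonneg fun κ _ => hPQ0 j κ) (mem_univ j)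
  obtain ⟨S, hS⟩ : ∃ S : ℝ, S = |CM| + ∑ κ ∈ K, (CH κ + |CU κ|) := ⟨_, rfl⟩
  have hSκ0 : ∀ κ ∈ K, 0 ≤ CH κ + |CU κ| := fun κ _ => add_nonneg (hCH0 κ) (abs_nonneg _)
  have hS0 : 0 ≤ S := by
    rw [hS]
    exact add_nonneg (abs_nonneg _) (sum_nonneg hSκ0)
  have hSM : |CM| ≤ S := by
    rw [hS]
    linarith [sum_nonneg hSκ0]
  have hSκ : ∀ κ ∈ K, CH κ + |CU κ| ≤ S := by
    intro κ hκ
    rw [hS]
    have := single_le_sum hSκ0 hκ
    linarith [abs_nonneg CM]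
  -- the sums of combinations of characters
  have hcomb : ∀ (R : ℤ → ℝ), (∀ κ, 0 ≤ R κ) → ∀ y, z < y →
      |∑ p ∈ PS z y, (∑ κ ∈ K, R κ * Jr κ p) / (p : ℝ) - R 1 * Real.log (Real.log y)| ≤
        (∑ κ ∈ K, R κ) * S := by
    intro R hR y hy
    have e1 : ∑ p ∈ PS z y, (∑ κ ∈ K, R κ * Jr κ p) / (p : ℝ) =
        ∑ κ ∈ K, R κ * ∑ p ∈ PS z y, Jr κ p / (p : ℝ) := by
      simp_rw [sum_div, mul_sum]
      rw [sum_comm]
      exact sum_congr rfl fun κ _ => sum_congr rfl fun p _ => by ring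
    have e2 : R 1 * Real.log (Real.log y) =
        ∑ κ ∈ K, R κ * (if κ = 1 then Real.log (Real.log y) else 0) := by
      simp_rw [mul_ite, mul_zero]
      rw [sum_ite_eq' K 1, if_pos h1K]
    rw [e1, e2, ← sum_sub_distrib, sum_mul]
    refine (abs_sum_le_sum_abs _ _).trans (sum_le_sum fun κ hκ => ?_)
    rw [← mul_sub, abs_mul, abs_of_nonneg (hR κ)]
    apply mul_le_mul_of_nonneg_left _ (hR κ)
    by_cases h1 : κ = 1
    · rw [if_pos h1, h1]
      have e3 : ∑ p ∈ PS z y, Jr 1 p / (p : ℝ) = ∑ p ∈ PS z y, (1 : ℝ) / (p : ℝ) :=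
        sum_congr rfl fun p _ => by rw [Jr_one']
      rw [e3]
      exact ((hM y hy).trans (le_abs_self CM)).trans hSM
    · rw [if_neg h1, sub_zero]
      exact ((hCH κ hκ h1 y hy).trans (by linarith [abs_nonneg (CU κ)])).trans (hSκ κ hκ)
  have hprime : ∀ y, ∀ p ∈ PS z y, p.Prime ∧ z1 < p := by
    intro y p hp
    have := mem_PS.1 hp
    exact ⟨this.2, by omega⟩
  have hrsS : ∀ j y, Sp (rs g j) z y = ∑ p ∈ PS z y, (∑ κ ∈ K, P j κ * Jr κ p) / (p : ℝ) := by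
    intro j y
    unfold Sp
    refine sum_congr rfl fun p hp => ?_
    rw [hP j p (hprime y p hp).1 (hprime y p hp).2]
  have hPsum : ∀ j, ∑ κ ∈ K, P j κ ≤ M := fun j =>
    (sum_le_sum fun κ _ => by linarith [hQ0 j κ]).trans (hMj j)
  refine ⟨M * S, M,
    { g0 := hg0
      gc := hgc
      c1 := hc1
      hz := by omega
      hE := hM0
      hC := by positivity
      lo := ?_
      up := ?_
      spl := ?_
      H2 := ?_ }⟩
  · intro j y hy
    rw [hrsS]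
    have h1 := (abs_le.1 (hcomb (P j) (hP0 j) y hy)).1
    have h2 := mul_le_mul_of_nonneg_right (hPsum j) hS0
    linarith
  · intro j y hy
    rw [hrsS]
    have h1 := (abs_le.1 (hcomb (P j) (hP0 j) y hy)).2
    have h2 := mul_le_mul_of_nonneg_right (hPsum j) hS0
    linarith
  · intro j y hj hy
    have e1 : Sp (rsp g j) z y =
        ∑ p ∈ PS z y, (∑ κ ∈ K, (P j κ + Q j κ) / 2 * Jr κ p) / (p : ℝ) := by
      unfold Sp
      refine sum_congr rfl fun p hp => ?_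
      have h1 := hP j p (hprime y p hp).1 (hprime y p hp).2
      have h2 := hQ j p (hprime y p hp).1 (hprime y p hp).2
      have h3 : rsp g j p = (rs g j p + ∑ θ : Ty, (if θ 0 = true then -1 else 1) * g (j, θ) p) /
          2 := by
        unfold rsp rs
        rw [← sum_add_distrib, sum_div]
        refine sum_congr rfl fun θ _ => ?_
        cases h : θ 0 <;> simp
      rw [h3, h1, h2, ← sum_add_distrib, sum_div]
      congr 1
      exact sum_congr rfl fun κ _ => by ring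
    rw [e1]
    have h1 := (abs_le.1 (hcomb (fun κ => (P j κ + Q j κ) / 2)
      (fun κ => div_nonneg (hPQ0 j κ) zero_le_two) y hy)).2
    have h2 : ∑ κ ∈ K, (P j κ + Q j κ) / 2 ≤ M := by
      rw [← sum_div]
      have := hMj j
      have h3 : 0 ≤ ∑ κ ∈ K, (P j κ + Q j κ) := sum_nonneg fun κ _ => hPQ0 j κ
      linarith
    have h3 := mul_le_mul_of_nonneg_right h2 hS0
    linarith
  · intro i y r e hy hr hsq hpr
    have hlr := Pool.Agent.TH841.PT.loglog_nonneg (by omega : 2 ≤ z) hr hpr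
    have hw0 : 0 ≤ w4 cls i := (Pool.Agent.TH841.PT.w4_pos cls i).le
    have hw1 : w4 cls i ≤ 1 := by
      unfold w4
      split_ifs <;> norm_num
    have hκm : κm cls i = 1 := by
      unfold κm
      rw [if_neg (hcls i.1.1)]
      split_ifs <;> rfl
    -- the combination
    obtain ⟨R, hR0, hRs, hR⟩ : ∃ R : ℤ → ℝ, (∀ κ, 0 ≤ R κ) ∧ (∑ κ ∈ K, R κ ≤ M) ∧
        ∀ p : ℕ, p.Prime → z1 < p → acf cls g i p = w4 cls i * ∑ κ ∈ K, R κ * Jr κ p := by
      by_cases h : i.1.2.1 = (false, false) ∨ i.1.2.2 = (false, false)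
      · refine ⟨P i.1.1, hP0 _, hPsum _, fun p hp hzp => ?_⟩
        rw [← hP i.1.1 p hp hzp]
        unfold acf rs
        rw [hκm, Jr_one', one_mul, mul_sum]
        refine sum_congr rfl fun θ _ => ?_
        have hb : bit4 cls (fun _ => θ) i = false := by
          unfold bit4
          rw [if_pos h]
        rw [hb]
        simp
      · refine ⟨Q i.1.1, hQ0 _, (sum_le_sum fun κ _ => by linarith [hP0 i.1.1 κ]).trans (hMj _),
          fun p hp hzp => ?_⟩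
        rw [← hQ i.1.1 p hp hzp]
        unfold acf
        rw [hκm, Jr_one', one_mul, mul_sum]
        refine sum_congr rfl fun θ _ => ?_
        have hb : bit4 cls (fun _ => θ) i = θ 0 := by
          unfold bit4
          rw [if_neg h, if_neg (hcls i.1.1)]
        rw [hb]
    have e1 : ∑ p ∈ PS z y, acf cls g i p * (Jr p r * x4 e p) / (p : ℝ) =
        w4 cls i * ∑ κ ∈ K, R κ * ∑ p ∈ PS z y, Jr p r * Jr κ p * x4 e p / (p : ℝ) := by
      have e2 : ∀ κ ∈ K, R κ * ∑ p ∈ PS z y, Jr p r * Jr κ p * x4 e p / (p : ℝ) =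
          ∑ p ∈ PS z y, R κ * (Jr p r * Jr κ p * x4 e p / (p : ℝ)) := fun κ _ => mul_sum _ _ _
      rw [sum_congr rfl e2, sum_comm, mul_sum]
      refine sum_congr rfl fun p hp => ?_
      rw [hR p (hprime y p hp).1 (hprime y p hp).2, mul_sum, mul_sum, sum_mul, sum_div]
      exact sum_congr rfl fun κ _ => by ring
    rw [e1]
    have h1 : ∑ κ ∈ K, R κ * ∑ p ∈ PS z y, Jr p r * Jr κ p * x4 e p / (p : ℝ) ≤
        M * Real.log (Real.log r) + M * S := by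
      have h2 : ∑ κ ∈ K, R κ * ∑ p ∈ PS z y, Jr p r * Jr κ p * x4 e p / (p : ℝ) ≤
          ∑ κ ∈ K, R κ * (Real.log (Real.log r) + S) := by
        refine sum_le_sum fun κ hκ => mul_le_mul_of_nonneg_left ?_ (hR0 κ)
        have h3 := hCU κ hκ y r e hy hr hsq hpr
        have h4 := hSκ κ hκ
        have h5 := hCH0 κ
        have h6 := le_abs_self (CU κ)
        linarith
      rw [← sum_mul] at h2
      have h3 := mul_le_mul_of_nonneg_right hRs (add_nonneg hlr hS0)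
      linarith
    have h2 : 0 ≤ M * Real.log (Real.log r) + M * S := by positivity
    calc w4 cls i * ∑ κ ∈ K, R κ * ∑ p ∈ PS z y, Jr p r * Jr κ p * x4 e p / (p : ℝ) ≤
        w4 cls i * (M * Real.log (Real.log r) + M * S) := mul_le_mul_of_nonneg_left h1 hw0
      _ ≤ 1 * (M * Real.log (Real.log r) + M * S) := mul_le_mul_of_nonneg_right hw1 h2
      _ = _ := one_mul _

end Pool.Agent.R421.HF
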