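import Pool.Agent.W307.RT.Box

/-!
# Project HF: from the parameters to the curves (adapted from `W307/RT/Box`)
-/

set_option autoImplicit false
set_option linter.all false

namespace Pool.Agent.R421.HF

open Finset

/-- from the average over the parameters to the average over the curves -/
theorem final_gen {Ω : Type} [DecidableEq Ω] {k e : ℕ} (hk : 1 ≤ k) (Cv : ℕ → Finset (ℤ × ℤ))
    (w : ℤ × ℤ → ℝ) (w' : Ω → ℝ) (P : Ω → ℕ → Prop)
    (hmono : ∀ t n T, P t n → n ≤ T → P t T)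
    (hP : ∃ (C0 : ℕ) (F : ℤ × ℤ → Ω), ∀ H : ℕ, Set.InjOn F (Cv H : Set (ℤ × ℤ)) ∧
      ∀ c ∈ Cv H, ∃ n : ℕ, P (F c) n ∧ n ^ k ≤ C0 * H ∧ w c ≤ w' (F c))
    (hL : ∃ (c : ℝ) (C T0 : ℕ), 0 < c ∧ ∀ T H : ℕ, T0 ≤ T → C * T ^ k ≤ H →
      c * T ^ e ≤ ((Cv H).card : ℝ))
    (hbox : ∃ C : ℝ, 0 ≤ C ∧ ∀ T : ℕ, 1 ≤ T → ∀ S : Finset Ω, (∀ t ∈ S, P t T) →
      ∑ t ∈ S, w' t ≤ C * (T : ℝ) ^ e) :
    ∃ C : ℝ, ∀ H : ℕ, ∑ c ∈ Cv H, w c ≤ C * (Cv H).card := by
  classical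
  obtain ⟨C0', F, hF⟩ := hP
  obtain ⟨c, C1, T0, hc, hlow⟩ := hL
  obtain ⟨C, hC, hb⟩ := hbox
  set C0 := C0' + 1 with hC0
  have hF' : ∀ H : ℕ, ∀ x ∈ Cv H, ∃ n : ℕ, P (F x) n ∧ n ^ k ≤ C0 * H := by
    intro H x hx
    obtain ⟨n, h1, h2, _⟩ := (hF H).2 x hx
    have : C0' * H ≤ C0 * H := Nat.mul_le_mul_right _ (by omega)
    exact ⟨n, h1, h2.trans this⟩
  set D := C0 * C1 + 1 with hD
  have hD1 : 1 ≤ D := by omega
  -- the sum is at most `C T ^ e`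
  have hsum : ∀ H T : ℕ, 1 ≤ T → (∀ x ∈ Cv H, P (F x) T) →
      ∑ x ∈ Cv H, w x ≤ C * (T : ℝ) ^ e := by
    intro H T hT hx
    obtain ⟨hinj, h2⟩ := hF H
    have h3 : ∑ x ∈ Cv H, w x ≤ ∑ t ∈ (Cv H).image F, w' t := by
      rw [sum_image hinj]
      apply sum_le_sum
      intro x hx'
      obtain ⟨n, _, _, h4⟩ := h2 x hx'
      exact h4
    refine h3.trans (hb T hT _ ?_)
    intro t ht
    obtain ⟨x, hx', rfl⟩ := mem_image.1 ht
    exact hx x hx'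
  refine ⟨C * ((D * (T0 + 1) : ℕ) : ℝ) ^ e + C * (2 * (D : ℝ)) ^ e / c, fun H => ?_⟩
  set K := (Cv H).card with hK
  by_cases hK0 : K = 0
  · have : Cv H = ∅ := card_eq_zero.1 hK0
    rw [this, sum_empty, hK0]
    simp
  have hK1 : (1 : ℝ) ≤ K := by exact_mod_cast Nat.one_le_iff_ne_zero.2 hK0
  have hq0 : 0 ≤ C * (2 * (D : ℝ)) ^ e / c := by positivity
  have hr0 : 0 ≤ C * ((D * (T0 + 1) : ℕ) : ℝ) ^ e := by positivity
  set T := Nat.findGreatest (fun t => t ^ k ≤ C0 * H) (C0 * H) with hT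
  have hle : ∀ x : ℕ, x ^ k ≤ C0 * H → x ≤ T := by
    intro x hx
    apply Nat.le_findGreatest
    · exact (Nat.le_self_pow (by omega) x).trans hx
    · exact hx
  have hTk : T ^ k ≤ C0 * H := by
    have : (fun t => t ^ k ≤ C0 * H) T :=
      Nat.findGreatest_spec (P := fun t => t ^ k ≤ C0 * H) (Nat.zero_le _)
        (by rw [zero_pow (by omega)]; exact Nat.zero_le _)
    exact this
  have hxT : ∀ x ∈ Cv H, P (F x) T := fun x hx => by
    obtain ⟨n, h1, h2⟩ := hF' H x hx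
    exact hmono _ _ _ h1 (hle _ h2)
  rcases Nat.lt_or_ge T (D * (T0 + 1)) with hlt | hge
  · have h1 := hsum H (D * (T0 + 1)) (Nat.mul_pos hD1 (Nat.succ_pos _)) fun x hx =>
      hmono _ _ _ (hxT x hx) hlt.le
    calc _ ≤ C * ((D * (T0 + 1) : ℕ) : ℝ) ^ e := h1
      _ ≤ C * ((D * (T0 + 1) : ℕ) : ℝ) ^ e * K := le_mul_of_one_le_right hr0 hK1
      _ ≤ _ := by
        apply mul_le_mul_of_nonneg_right _ (by linarith)
        linarith
  · have hT1 : 1 ≤ T := (Nat.mul_pos hD1 (Nat.succ_pos _)).trans_le hge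
    have h1 := hsum H T hT1 hxT
    set T' := T / D with hT'
    have hT'0 : T0 + 1 ≤ T' := by
      rw [hT', Nat.le_div_iff_mul_le hD1, mul_comm]
      exact hge
    have h2 : T' * D ≤ T := Nat.div_mul_le_self T D
    have h3 : C1 * T' ^ k ≤ H := by
      have a1 : (T' * D) ^ k ≤ C0 * H := (Nat.pow_le_pow_left h2 k).trans hTk
      rw [mul_pow] at a1
      have a2 : D ≤ D ^ k := Nat.le_self_pow (by omega) D
      have a3 : T' ^ k * (C0 * C1) ≤ C0 * H :=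
        (Nat.mul_le_mul_left _ (by omega : C0 * C1 ≤ D ^ k)).trans a1
      have a4 : C0 * (C1 * T' ^ k) ≤ C0 * H := by
        calc C0 * (C1 * T' ^ k) = T' ^ k * (C0 * C1) := by ring
          _ ≤ _ := a3
      exact Nat.le_of_mul_le_mul_left a4 (by omega)
    have h4 := hlow T' H (by omega) h3
    have h5 : T ≤ 2 * D * T' := by
      have a1 : T < D * (T' + 1) := by
        rw [mul_comm]
        exact Nat.lt_mul_of_div_lt (by rw [← hT']; omega) hD1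
      have a2 : D * (T' + 1) ≤ 2 * D * T' := by nlinarith
      omega
    have h6 : (T : ℝ) ≤ 2 * D * T' := by exact_mod_cast h5
    calc _ ≤ C * (T : ℝ) ^ e := h1
      _ ≤ C * (2 * D * T') ^ e := by
        apply mul_le_mul_of_nonneg_left _ hC
        exact pow_le_pow_left₀ (Nat.cast_nonneg T) h6 e
      _ = C * (2 * (D : ℝ)) ^ e / c * (c * (T' : ℝ) ^ e) := by
        rw [mul_pow (2 * (D : ℝ)) (T' : ℝ) e]
        field_simp
      _ ≤ C * (2 * (D : ℝ)) ^ e / c * K := mul_le_mul_of_nonneg_left h4 hq0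
      _ ≤ _ := by
        apply mul_le_mul_of_nonneg_right _ (by linarith)
        linarith

end Pool.Agent.R421.HF
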