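import Pool.Agent.R421.HF.Cor4
import Pool.Agent.W29.RT.LOW4

/-!
# Project HF: many curves with a point of order `N`, `4 ∣ N`
-/

set_option autoImplicit false
set_option linter.all false

namespace Pool.Agent.R421.HF

open Finset Filter WeierstrassCurve Pool.Agent.W262.RK Pool.Agent.W307.RT
open Pool.Agent.W29.RT (nons neg_y SS card_SS abs_le_cube abs_le_sq)
open Pool.Agent.W605.RT (sh_eq sh_negY two_tors int_root int_sqrt root_sq)

open Classical in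
/-- the minimal curves of height at most `H` with a point of order `N` -/
noncomputable def CvN (N H : ℕ) : Finset (ℤ × ℤ) :=
  ((Icc (-(H : ℤ)) H) ×ˢ (Icc (-(H : ℤ)) H)).filter (fun c : ℤ × ℤ =>
    4 * c.1 ^ 3 + 27 * c.2 ^ 2 ≠ 0 ∧ 4 * |c.1| ^ 3 ≤ H ∧ 27 * c.2 ^ 2 ≤ H ∧
    (∀ p : ℕ, p.Prime → ¬ ((p : ℤ) ^ 4 ∣ c.1 ∧ (p : ℤ) ^ 6 ∣ c.2)) ∧
    ∃ P : (Sh c.1 c.2).toAffine.Point, addOrderOf P = N)

/-- the minimal model -/
theorem exists_min : ∀ (n : ℕ) (A B : ℤ), (4 * A ^ 3 + 27 * B ^ 2).natAbs ≤ n →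
    4 * A ^ 3 + 27 * B ^ 2 ≠ 0 → ∃ u A' B' : ℤ, 0 < u ∧ A = u ^ 4 * A' ∧ B = u ^ 6 * B' ∧
      4 * A' ^ 3 + 27 * B' ^ 2 ≠ 0 ∧
      ∀ p : ℕ, p.Prime → ¬ ((p : ℤ) ^ 4 ∣ A' ∧ (p : ℤ) ^ 6 ∣ B') := by
  intro n
  induction n with
  | zero =>
    intro A B h h0
    exfalso
    apply h0
    omega
  | succ n ih =>
    intro A B h h0
    by_cases hm : ∀ p : ℕ, p.Prime → ¬ ((p : ℤ) ^ 4 ∣ A ∧ (p : ℤ) ^ 6 ∣ B)
    · exact ⟨1, A, B, one_pos, by ring, by ring, h0, hm⟩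
    · push Not at hm
      obtain ⟨p, hp, ⟨a, ha⟩, b, hb⟩ := hm
      have e : 4 * A ^ 3 + 27 * B ^ 2 = (p : ℤ) ^ 12 * (4 * a ^ 3 + 27 * b ^ 2) := by
        rw [ha, hb]; ring
      have h1 : 4 * a ^ 3 + 27 * b ^ 2 ≠ 0 := by
        intro h2
        apply h0
        rw [e, h2, mul_zero]
      have h2 : (4 * a ^ 3 + 27 * b ^ 2).natAbs ≤ n := by
        have h3 : (4 * A ^ 3 + 27 * B ^ 2).natAbs = p ^ 12 * (4 * a ^ 3 + 27 * b ^ 2).natAbs := by
          rw [e, Int.natAbs_mul, Int.natAbs_pow, Int.natAbs_natCast]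
        have h4 : 2 ≤ p ^ 12 := hp.two_le.trans (Nat.le_self_pow (by norm_num) p)
        have h5 : 0 < (4 * a ^ 3 + 27 * b ^ 2).natAbs := Int.natAbs_pos.2 h1
        nlinarith
      obtain ⟨u, A', B', hu, e1, e2, e3, e4⟩ := ih a b h2 h1
      refine ⟨p * u, A', B', mul_pos (by exact_mod_cast hp.pos) hu, ?_, ?_, e3, e4⟩
      · rw [ha, e1]; ring
      · rw [hb, e2]; ring

/-- the points of isomorphic curves -/
theorem pt_transfer {u A B A' B' : ℤ} (hu : 0 < u) (hA : A = u ^ 4 * A') (hB : B = u ^ 6 * B')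
    {N : ℕ} (h : ∃ P : (Sh A B).toAffine.Point, addOrderOf P = N) :
    ∃ P : (Sh A' B').toAffine.Point, addOrderOf P = N := by
  obtain ⟨P, hP⟩ := h
  have huq : (u : ℚ) ≠ 0 := by exact_mod_cast hu.ne'
  obtain ⟨φ⟩ := Pool.Agent.W261.RT.iso 0 A B 0 u huq
  have hW : (⟨0, ((0 : ℚ) + 3 * 0) / (u : ℚ) ^ 2, 0,
      ((A : ℚ) + 2 * 0 * 0 + 3 * (0 : ℚ) ^ 2) / (u : ℚ) ^ 4,
      ((B : ℚ) + 0 * A + (0 : ℚ) ^ 2 * 0 + (0 : ℚ) ^ 3) / (u : ℚ) ^ 6⟩ : WeierstrassCurve ℚ)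
      = Sh A' B' := by
    unfold Sh
    simp only [WeierstrassCurve.mk.injEq, true_and]
    have h4 : (A : ℚ) = u ^ 4 * A' := by exact_mod_cast hA
    have h6 : (B : ℚ) = u ^ 6 * B' := by exact_mod_cast hB
    refine ⟨by simp, ?_, ?_⟩
    · rw [h4]; field_simp; ring
    · rw [h6]; field_simp; ring
  rw [hW] at φ
  refine ⟨φ P, ?_⟩
  have := addOrderOf_injective φ.toAddMonoidHom φ.injective P
  rw [← hP]
  exact this

/-- the scaling factor, when there is only one real root -/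
theorem Rel4.inj_real {A B s t e A' B' s' t' e' u u' : ℤ} (h : Rel4 A B s t e)
    (h' : Rel4 A' B' s' t' e') (hneg : s ^ 2 < 4 * t) (ht : 0 < t) (ht' : 0 < t') (hs : 0 < s)
    (hs' : 0 < s') (hu : 0 < u) (hu' : 0 < u')
    (h4 : u' ^ 4 * A = u ^ 4 * A') (h6 : u' ^ 6 * B = u ^ 6 * B') :
    u' * s = u * s' ∧ u' ^ 2 * t = u ^ 2 * t' := by
  have he : u' ^ 2 * e = u ^ 2 * e' := by
    obtain ⟨x, hx⟩ : ∃ x, x = u' ^ 2 * e := ⟨_, rfl⟩
    obtain ⟨y, hy⟩ : ∃ y, y = u ^ 2 * e' := ⟨_, rfl⟩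
    obtain ⟨w, hw⟩ : ∃ w, w = u' ^ 2 * t := ⟨_, rfl⟩
    rw [← hx, ← hy]
    have r1 : x ^ 3 + (u' ^ 4 * A) * x + u' ^ 6 * B = 0 := by
      rw [hx, h.hA, h.hB]; ring
    have r2 : y ^ 3 + (u' ^ 4 * A) * y + u' ^ 6 * B = 0 := by
      rw [h4, h6, hy, h'.hA, h'.hB]; ring
    have hA1 : u' ^ 4 * A = w ^ 2 - 3 * x ^ 2 := by rw [hw, hx, h.hA]; ring
    have hprod : (x - y) * (x ^ 2 + x * y + y ^ 2 + u' ^ 4 * A) = 0 := by linear_combination r1 - r2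
    rcases mul_eq_zero.1 hprod with h1 | h1
    · linarith
    · exfalso
      rw [hA1] at h1
      -- `(2 y + x) ^ 2 = (3 x - 2 w) (3 x + 2 w) < 0`
      have h2 : (2 * y + x) ^ 2 = (3 * x - 2 * w) * (3 * x + 2 * w) := by linear_combination 4 * h1
      have h3 : (3 * x - 2 * w) * (3 * x + 2 * w) = u' ^ 4 * ((s ^ 2 - 4 * t) * s ^ 2) := by
        have a1 : 3 * x - 2 * w = u' ^ 2 * (3 * e - 2 * t) := by rw [hx, hw]; ring
        have a2 : 3 * x + 2 * w = u' ^ 2 * (3 * e + 2 * t) := by rw [hx, hw]; ring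
        rw [a1, a2, h.he]
        ring
      have h4 : 0 < u' ^ 4 * ((4 * t - s ^ 2) * s ^ 2) := by
        have : 0 < 4 * t - s ^ 2 := by linarith
        positivity
      have h5 := sq_nonneg (2 * y + x)
      rw [h2, h3] at h5
      nlinarith
  have e4 : (u' ^ 2 * t) ^ 2 = (u ^ 2 * t') ^ 2 := by
    have a1 : (u' ^ 2 * t) ^ 2 = u' ^ 4 * A + 3 * (u' ^ 2 * e) ^ 2 := by rw [h.hA]; ring
    have a2 : (u ^ 2 * t') ^ 2 = u ^ 4 * A' + 3 * (u ^ 2 * e') ^ 2 := by rw [h'.hA]; ring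
    rw [a1, a2, h4, he]
  have e5 : u' ^ 2 * t = u ^ 2 * t' := by
    have p1 : 0 ≤ u' ^ 2 * t := by positivity
    have p2 : 0 ≤ u ^ 2 * t' := by positivity
    exact (pow_left_inj₀ p1 p2 two_ne_zero).1 e4
  refine ⟨?_, e5⟩
  have e6 : (u' * s) ^ 2 = (u * s') ^ 2 := by
    have a1 : (u' * s) ^ 2 = 3 * (u' ^ 2 * e) + 2 * (u' ^ 2 * t) := by
      linear_combination -u' ^ 2 * h.he
    have a2 : (u * s') ^ 2 = 3 * (u ^ 2 * e') + 2 * (u ^ 2 * t') := by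
      linear_combination -u ^ 2 * h'.he
    rw [a1, a2, he, e5]
  exact (pow_left_inj₀ (by positivity) (by positivity) two_ne_zero).1 e6

/-- the discriminant -/
theorem Rel4.disc {A B s t e : ℤ} (h : Rel4 A B s t e) : 4 * A ^ 3 + 27 * B ^ 2 ≠ 0 := by
  have a1 : 4 * A ^ 3 + 27 * B ^ 2 = t ^ 4 * (4 * t ^ 2 - 9 * e ^ 2) := by
    rw [h.hA, h.hB]; ring
  have a2 : (4 * t ^ 2 - 9 * e ^ 2) = -((3 * e - 2 * t) * (3 * e + 2 * t)) := by ring
  have a3 : 3 * e - 2 * t = s ^ 2 - 4 * t := by rw [h.he]; ring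
  have a4 : 3 * e + 2 * t = s ^ 2 := by rw [h.he]; ring
  rw [a1, a2, a3, a4]
  exact mul_ne_zero (pow_ne_zero 4 h.ht) (neg_ne_zero.2 (mul_ne_zero h.hd (pow_ne_zero 2 h.hs)))

/-- the nonsingular points of order 2 and 4 -/
theorem Rel4.pt4 {A B s t e : ℤ} (h : Rel4 A B s t e) :
    ∃ (h1 : (Sh A B).toAffine.Nonsingular (e : ℚ) 0)
      (h2 : (Sh A B).toAffine.Nonsingular ((e : ℚ) + t) ((s : ℚ) * t)),
      Affine.Point.some _ _ h2 + Affine.Point.some _ _ h2 = Affine.Point.some _ _ h1 ∧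
      addOrderOf (Affine.Point.some _ _ h1) = 2 ∧ addOrderOf (Affine.Point.some _ _ h2) = 4 := by
  have hs : (s : ℚ) ≠ 0 := by exact_mod_cast h.hs
  have ht : (t : ℚ) ≠ 0 := by exact_mod_cast h.ht
  have he : 3 * (e : ℚ) = s ^ 2 - 2 * t := by exact_mod_cast h.he
  have hA : (A : ℚ) = t ^ 2 - 3 * e ^ 2 := by exact_mod_cast h.hA
  have hB : (B : ℚ) = 2 * e ^ 3 - t ^ 2 * e := by exact_mod_cast h.hB
  have h1 : (Sh A B).toAffine.Nonsingular (e : ℚ) 0 := by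
    apply nons _ (Or.inr _)
    · rw [hA, hB]; ring
    · rw [hA]
      have : 3 * (e : ℚ) ^ 2 + (t ^ 2 - 3 * e ^ 2) = t ^ 2 := by ring
      rw [this]
      exact pow_ne_zero 2 ht
  have hst : (s : ℚ) * t ≠ 0 := mul_ne_zero hs ht
  have h2 : (Sh A B).toAffine.Nonsingular ((e : ℚ) + t) ((s : ℚ) * t) := by
    apply nons _ (Or.inl hst)
    rw [hA, hB]
    linear_combination (-(t : ℚ) ^ 2) * he
  refine ⟨h1, h2, ?_⟩
  set R : (Sh A B).toAffine.Point := .some _ _ h1 with hRd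
  set Q : (Sh A B).toAffine.Point := .some _ _ h2 with hQd
  have hRR : R + R = 0 := by
    rw [hRd]
    apply Affine.Point.add_self_of_Y_eq
    rw [neg_y]; simp
  have hR0 : R ≠ 0 := Affine.Point.some_ne_zero h1
  have hQQ : Q + Q = R := by
    have hne : (s : ℚ) * t ≠ (Sh A B).toAffine.negY ((e : ℚ) + t) ((s : ℚ) * t) := by
      rw [neg_y]
      intro h0
      apply hst
      linarith
    have hsl : (Sh A B).toAffine.slope ((e : ℚ) + t) ((e : ℚ) + t) ((s : ℚ) * t) ((s : ℚ) * t) =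
        s := by
      rw [Affine.slope_of_Y_ne rfl hne, neg_y]
      simp only [Sh]
      rw [div_eq_iff (by intro h0; apply hst; linarith), hA]
      linear_combination 2 * (t : ℚ) * he
    rw [hQd, Affine.Point.add_self_of_Y_ne hne, hRd, Affine.Point.some.injEq, hsl]
    constructor
    · simp only [Affine.addX, Sh]
      linear_combination (-1) * he
    · simp only [Affine.addY, Affine.negAddY, Affine.negY, Affine.addX, Sh]
      linear_combination (s : ℚ) * he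
  have hoR : addOrderOf R = 2 := by
    apply addOrderOf_eq_prime
    · rw [two_nsmul, hRR]
    · exact hR0
  have h2Q : 2 • Q = R := by rw [two_nsmul, hQQ]
  have h4Q : 4 • Q = 0 := by
    have : (4 : ℕ) • Q = 2 • (2 • Q) := by rw [← mul_nsmul]
    rw [this, h2Q, two_nsmul, hRR]
  have hoQ : addOrderOf Q = 4 := by
    have := addOrderOf_eq_prime_pow (x := Q) (p := 2) (n := 1) (by simp [h2Q, hR0]) h4Q
    simpa using this
  exact ⟨hQQ, hoR, hoQ⟩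

/-- the point of order 8 -/
theorem Rel4.pt8 {A B s t e u v : ℤ} (h : Rel4 A B s t e) (htu : t = u ^ 2)
    (hv : v ^ 2 = s * (s + 2 * u)) (hw : u * v * (s + u + v) ≠ 0) :
    ∃ P : (Sh A B).toAffine.Point, addOrderOf P = 8 := by
  obtain ⟨h1, h2, hQQ, hoR, hoQ⟩ := h.pt4
  have he : 3 * (e : ℚ) = s ^ 2 - 2 * t := by exact_mod_cast h.he
  have hA : (A : ℚ) = t ^ 2 - 3 * e ^ 2 := by exact_mod_cast h.hA
  have hB : (B : ℚ) = 2 * e ^ 3 - t ^ 2 * e := by exact_mod_cast h.hB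
  have htq : (t : ℚ) = u ^ 2 := by exact_mod_cast htu
  have hvq : (v : ℚ) ^ 2 = s * (s + 2 * u) := by exact_mod_cast hv
  have hwq : (u : ℚ) * v * (s + u + v) ≠ 0 := by exact_mod_cast hw
  have h8 : (Sh A B).toAffine.Nonsingular ((e : ℚ) + u * (s + u + v))
      ((u : ℚ) * v * (s + u + v)) := by
    apply nons _ (Or.inl hwq)
    rw [hA, hB, htq]
    have he' : 3 * (e : ℚ) = s ^ 2 - 2 * u ^ 2 := by rw [he, htq]
    linear_combination ((u : ℚ) ^ 2 * (s + u + v) * (v + s)) * hvq -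
      ((u : ℚ) * (s + u + v)) ^ 2 * he'
  set Q : (Sh A B).toAffine.Point := .some _ _ h2 with hQd
  set S : (Sh A B).toAffine.Point := .some _ _ h8 with hSd
  have hSS : S + S = Q := by
    have hne : (u : ℚ) * v * (s + u + v) ≠ (Sh A B).toAffine.negY ((e : ℚ) + u * (s + u + v))
        ((u : ℚ) * v * (s + u + v)) := by
      rw [neg_y]
      intro h0
      apply hwq
      linarith
    have hsl : (Sh A B).toAffine.slope ((e : ℚ) + u * (s + u + v)) ((e : ℚ) + u * (s + u + v))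
        ((u : ℚ) * v * (s + u + v)) ((u : ℚ) * v * (s + u + v)) = u + v := by
      rw [Affine.slope_of_Y_ne rfl hne, neg_y]
      simp only [Sh]
      rw [div_eq_iff (by intro h0; apply hwq; linarith), hA, htq]
      have he' : 3 * (e : ℚ) = s ^ 2 - 2 * u ^ 2 := by rw [he, htq]
      linear_combination (2 * (u : ℚ) * (s + u + v)) * he' +
        (-2 * (u : ℚ) * v - u ^ 2 - 2 * u * s) * hvq
    rw [hSd, Affine.Point.add_self_of_Y_ne hne, hQd, Affine.Point.some.injEq, hsl]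
    have he' : 3 * (e : ℚ) = s ^ 2 - 2 * u ^ 2 := by rw [he, htq]
    have hvv : (v : ℚ) ^ 2 = s ^ 2 + 2 * s * u := by rw [hvq]; ring
    constructor
    · simp only [Affine.addX, Sh]
      rw [htq]
      linear_combination hvv - he'
    · simp only [Affine.addY, Affine.negAddY, Affine.negY, Affine.addX, Sh]
      rw [htq]
      linear_combination (u + v : ℚ) * he' - (u + v : ℚ) * hvv
  have h2S : 2 • S = Q := by rw [two_nsmul, hSS]
  refine ⟨S, ?_⟩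
  have h4Q : (4 : ℕ) • Q = 0 := by
    have := addOrderOf_nsmul_eq_zero Q
    rwa [hoQ] at this
  have h4S : 4 • S = 2 • Q := by
    have : (4 : ℕ) • S = 2 • (2 • S) := by rw [← mul_nsmul]
    rw [this, h2S]
  have h2Q : 2 • Q ≠ 0 := by
    intro h0
    have := addOrderOf_dvd_of_nsmul_eq_zero h0
    rw [hoQ] at this
    norm_num at this
  have h8S : 8 • S = 0 := by
    have : (8 : ℕ) • S = 4 • (2 • S) := by rw [← mul_nsmul]
    rw [this, h2S, h4Q]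
  have := addOrderOf_eq_prime_pow (x := S) (p := 2) (n := 2) (by
    simp only [Nat.reducePow]
    rw [h4S]
    exact h2Q) h8S
  simpa using this

lemma gen4 {n : ℕ} {x x' y y' z z' : ℤ} (h : y = x ^ n * z) (h' : y' = x' ^ n * z') (hz : z = z') :
    x' ^ n * y = x ^ n * y' := by
  rw [h, h', hz]
  ring

/-- **Many curves.** -/
theorem low_of {N k : ℕ} (S T E : ℕ → ℕ → ℤ) (X : ℕ → ℤ) (C : ℕ)
    (hR : ∀ a b : ℕ, 1 ≤ b → b < a → a.Coprime b →
      0 < S a b ∧ 0 < T a b ∧ S a b ^ 2 < 4 * T a b ∧ 3 * E a b = S a b ^ 2 - 2 * T a b ∧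
      ∀ A B : ℤ, Rel4 A B (S a b) (T a b) (E a b) →
        ∃ P : (Sh A B).toAffine.Point, addOrderOf P = N)
    (hinj : ∀ a b a' b' : ℕ, 1 ≤ b → b < a → a.Coprime b → 1 ≤ b' → b' < a' → a'.Coprime b' →
      ∀ u u' : ℤ, 0 < u → 0 < u' → u' * S a b = u * S a' b' → u' ^ 2 * T a b = u ^ 2 * T a' b' →
      a = a' ∧ b = b')
    (hbd : ∀ a b K : ℕ, 1 ≤ b → b < a → a ≤ K → |T a b| ≤ X K ∧ |E a b| ≤ X K)
    (hX : ∀ K : ℕ, 256 * X K ^ 6 ≤ C * K ^ k) :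
    ∃ (c : ℝ) (C T0 : ℕ), 0 < c ∧ ∀ K H : ℕ, T0 ≤ K → C * K ^ k ≤ H →
      c * K ^ 2 ≤ ((CvN N H).card : ℝ) := by
  classical
  refine ⟨1 / 24, C, 5, by norm_num, fun K H hK hH => ?_⟩
  -- the curves
  set fA : ℕ → ℕ → ℤ := fun a b => T a b ^ 2 - 3 * E a b ^ 2 with hfA
  set fB : ℕ → ℕ → ℤ := fun a b => 2 * E a b ^ 3 - T a b ^ 2 * E a b with hfB
  have hrel : ∀ a b : ℕ, 1 ≤ b → b < a → a.Coprime b →
      Rel4 (fA a b) (fB a b) (S a b) (T a b) (E a b) := by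
    intro a b h1 h2 h3
    obtain ⟨p1, p2, p3, p4, -⟩ := hR a b h1 h2 h3
    exact ⟨p4, rfl, rfl, p1.ne', p2.ne', by intro h0; linarith⟩
  have hmm : ∀ A B : ℤ, ∃ uAB : ℤ × ℤ × ℤ, 4 * A ^ 3 + 27 * B ^ 2 ≠ 0 →
      0 < uAB.1 ∧ A = uAB.1 ^ 4 * uAB.2.1 ∧ B = uAB.1 ^ 6 * uAB.2.2 ∧
      4 * uAB.2.1 ^ 3 + 27 * uAB.2.2 ^ 2 ≠ 0 ∧
      ∀ p : ℕ, p.Prime → ¬ ((p : ℤ) ^ 4 ∣ uAB.2.1 ∧ (p : ℤ) ^ 6 ∣ uAB.2.2) := by
    intro A B
    by_cases h0 : 4 * A ^ 3 + 27 * B ^ 2 = 0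
    · exact ⟨(0, 0, 0), fun h => absurd h0 h⟩
    · obtain ⟨u, A', B', h⟩ := exists_min _ A B le_rfl h0
      exact ⟨(u, A', B'), fun _ => h⟩
  choose mm hmm using hmm
  have hSS : ∀ t ∈ SS K, 1 ≤ t.2 ∧ t.2 < t.1 ∧ t.1 ≤ K ∧ t.1.Coprime t.2 := by
    intro t ht
    unfold SS at ht
    rw [mem_sigma, mem_Icc, mem_filter, mem_range] at ht
    obtain ⟨⟨k1, k2⟩, k3, k4⟩ := ht
    refine ⟨?_, k3, k2, k4⟩
    rcases Nat.eq_zero_or_pos t.2 with h | h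
    · rw [h, Nat.coprime_zero_right] at k4; omega
    · exact h
  have h1 : (SS K).card ≤ (CvN N H).card := by
    apply card_le_card_of_injOn (fun t => (mm (fA t.1 t.2) (fB t.1 t.2)).2)
    · intro t ht
      obtain ⟨g1, g2, g3, g4⟩ := hSS t ht
      have hr := hrel t.1 t.2 g1 g2 g4
      obtain ⟨m1, m2, m3, m4, m5⟩ := hmm _ _ hr.disc
      change (mm (fA t.1 t.2) (fB t.1 t.2)).2 ∈ (CvN N H : Set (ℤ × ℤ))
      set u := (mm (fA t.1 t.2) (fB t.1 t.2)).1 with hu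
      set AB := (mm (fA t.1 t.2) (fB t.1 t.2)).2 with hAB
      rw [mem_coe]
      unfold CvN
      rw [mem_filter]
      obtain ⟨b1, b2⟩ := hbd t.1 t.2 K g1 g2 g3
      have hXK := hX K
      have hXn : 0 ≤ X K := (abs_nonneg _).trans b1
      have hH' : 256 * X K ^ 6 ≤ (H : ℤ) := hXK.trans (by exact_mod_cast hH)
      have t2 : T t.1 t.2 ^ 2 ≤ X K ^ 2 := by
        rw [← sq_abs]
        exact pow_le_pow_left₀ (abs_nonneg _) b1 2
      have e2 : E t.1 t.2 ^ 2 ≤ X K ^ 2 := by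
        rw [← sq_abs]
        exact pow_le_pow_left₀ (abs_nonneg _) b2 2
      have t20 := sq_nonneg (T t.1 t.2)
      have e20 := sq_nonneg (E t.1 t.2)
      have hA1 : |fA t.1 t.2| ≤ 3 * X K ^ 2 := by
        rw [abs_le]
        constructor <;> simp only [hfA] <;> linarith
      have hB1 : |fB t.1 t.2| ≤ 2 * X K ^ 3 := by
        have : fB t.1 t.2 = E t.1 t.2 * (2 * E t.1 t.2 ^ 2 - T t.1 t.2 ^ 2) := by
          simp only [hfB]; ring
        rw [this, abs_mul]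
        have a1 : |2 * E t.1 t.2 ^ 2 - T t.1 t.2 ^ 2| ≤ 2 * X K ^ 2 := by
          rw [abs_le]
          constructor <;> linarith
        calc _ ≤ X K * (2 * X K ^ 2) := mul_le_mul b2 a1 (abs_nonneg _) hXn
          _ = _ := by ring
      have hu4 : 1 ≤ u ^ 4 := one_le_pow₀ (by omega)
      have hu6 : 1 ≤ u ^ 6 := one_le_pow₀ (by omega)
      have hA2 : |AB.1| ≤ 3 * X K ^ 2 := by
        have : |fA t.1 t.2| = u ^ 4 * |AB.1| := by
          rw [m2, abs_mul, abs_of_nonneg (by positivity : (0 : ℤ) ≤ u ^ 4)]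
        rw [this] at hA1
        have := abs_nonneg AB.1
        nlinarith
      have hB2 : |AB.2| ≤ 2 * X K ^ 3 := by
        have : |fB t.1 t.2| = u ^ 6 * |AB.2| := by
          rw [m3, abs_mul, abs_of_nonneg (by positivity : (0 : ℤ) ≤ u ^ 6)]
        rw [this] at hB1
        have := abs_nonneg AB.2
        nlinarith
      have hA3 : 4 * |AB.1| ^ 3 ≤ H := by
        have : |AB.1| ^ 3 ≤ (3 * X K ^ 2) ^ 3 := pow_le_pow_left₀ (abs_nonneg _) hA2 3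
        have h6 : (0 : ℤ) ≤ X K ^ 6 := by positivity
        calc 4 * |AB.1| ^ 3 ≤ 4 * (3 * X K ^ 2) ^ 3 := by linarith
          _ = 108 * X K ^ 6 := by ring
          _ ≤ 256 * X K ^ 6 := by linarith
          _ ≤ _ := hH'
      have hB3 : 27 * AB.2 ^ 2 ≤ H := by
        have : |AB.2| ^ 2 ≤ (2 * X K ^ 3) ^ 2 := pow_le_pow_left₀ (abs_nonneg _) hB2 2
        rw [sq_abs] at this
        have h6 : (0 : ℤ) ≤ X K ^ 6 := by positivity
        calc 27 * AB.2 ^ 2 ≤ 27 * (2 * X K ^ 3) ^ 2 := by linarith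
          _ = 108 * X K ^ 6 := by ring
          _ ≤ 256 * X K ^ 6 := by linarith
          _ ≤ _ := hH'
      refine ⟨?_, m4, hA3, hB3, m5, ?_⟩
      · rw [mem_product, mem_Icc, mem_Icc]
        have c1 := abs_le_cube AB.1
        have c2 := abs_le_sq AB.2
        have c3 := abs_nonneg AB.1
        have c4 := sq_nonneg AB.2
        have c5 : (0 : ℤ) ≤ |AB.1| ^ 3 := by positivity
        have d1 : |AB.1| ≤ H := by linarith
        have d2 : |AB.2| ≤ H := by linarith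
        rw [abs_le] at d1 d2
        exact ⟨d1, d2⟩
      · exact pt_transfer m1 m2 m3 ((hR t.1 t.2 g1 g2 g4).2.2.2.2 _ _ hr)
    · intro t ht t' ht' h
      obtain ⟨g1, g2, g3, g4⟩ := hSS t ht
      obtain ⟨g1', g2', g3', g4'⟩ := hSS t' ht'
      have hr := hrel t.1 t.2 g1 g2 g4
      have hr' := hrel t'.1 t'.2 g1' g2' g4'
      obtain ⟨m1, m2, m3, -, -⟩ := hmm _ _ hr.disc
      obtain ⟨m1', m2', m3', -, -⟩ := hmm _ _ hr'.disc
      have h' : (mm (fA t.1 t.2) (fB t.1 t.2)).2 = (mm (fA t'.1 t'.2) (fB t'.1 t'.2)).2 := h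
      obtain ⟨p1, p2, p3, p4, -⟩ := hR t.1 t.2 g1 g2 g4
      obtain ⟨p1', p2', p3', p4', -⟩ := hR t'.1 t'.2 g1' g2' g4'
      have q4 : (mm (fA t'.1 t'.2) (fB t'.1 t'.2)).1 ^ 4 * fA t.1 t.2 =
          (mm (fA t.1 t.2) (fB t.1 t.2)).1 ^ 4 * fA t'.1 t'.2 :=
        gen4 m2 m2' (congrArg Prod.fst h')
      have q6 : (mm (fA t'.1 t'.2) (fB t'.1 t'.2)).1 ^ 6 * fB t.1 t.2 =
          (mm (fA t.1 t.2) (fB t.1 t.2)).1 ^ 6 * fB t'.1 t'.2 :=
        gen4 m3 m3' (congrArg Prod.snd h')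
      obtain ⟨z1, z2⟩ := hr.inj_real hr' p3 p2 p2' p1 p1' m1 m1' q4 q6
      obtain ⟨y1, y2⟩ := hinj _ _ _ _ g1 g2 g4 g1' g2' g4' _ _ m1 m1' z1 z2
      exact Sigma.ext y1 (heq_of_eq y2)
  have h2 := card_SS K hK
  have h3 : (K : ℝ) ^ 2 ≤ 24 * ((SS K).card : ℝ) := by exact_mod_cast h2
  have h4 : ((SS K).card : ℝ) ≤ ((CvN N H).card : ℝ) := by exact_mod_cast h1
  linarith

/-- the number of the curves tends to infinity -/
lemma tendsto_of_low' {N k e : ℕ} (he : 1 ≤ e) (h : ∃ (c : ℝ) (C T0 : ℕ), 0 < c ∧ ∀ K H : ℕ,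
    T0 ≤ K → C * K ^ k ≤ H → c * K ^ e ≤ ((CvN N H).card : ℝ)) :
    Tendsto (fun H : ℕ => (CvN N H).card) atTop atTop := by
  obtain ⟨c, C, T0, hc, h⟩ := h
  rw [tendsto_atTop_atTop]
  intro b
  obtain ⟨n, hn⟩ := exists_nat_gt ((b : ℝ) / c)
  set T := max (max n T0) 1 with hT
  have h1 : (b : ℝ) ≤ c * (T : ℝ) ^ e := by
    rw [div_lt_iff₀ hc] at hn
    have hT1 : (1 : ℝ) ≤ T := by exact_mod_cast (le_max_right (max n T0) 1)
    have hTn : (n : ℝ) ≤ T := by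
      exact_mod_cast (le_max_left n T0).trans (le_max_left (max n T0) 1)
    have h2 : (T : ℝ) ≤ (T : ℝ) ^ e := le_self_pow₀ hT1 (by omega)
    nlinarith
  refine ⟨C * T ^ k, fun H hH => ?_⟩
  have h3 := h T H ((le_max_right n T0).trans (le_max_left _ 1)) hH
  exact_mod_cast h1.trans h3

end Pool.Agent.R421.HF
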