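import Pool.Agent.R421.HF.Rkle
import Pool.Agent.W605.RT.PAR4

/-!
# Project HF: the curves with a rational point of order 4
-/

set_option autoImplicit false
set_option linter.all false

namespace Pool.Agent.R421.HF

open WeierstrassCurve.Affine Pool.Agent.W262.RK Pool.Agent.W307.RT
open Pool.Agent.W605.RT (sh_eq sh_negY two_tors int_root int_sqrt root_sq)

/-- two minimal models of isomorphic curves are equal -/
theorem min_unique {A B A' B' k k' : ℤ} (hk : k ≠ 0) (hk' : k' ≠ 0)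
    (h4 : k' ^ 4 * A = k ^ 4 * A') (h6 : k' ^ 6 * B = k ^ 6 * B')
    (hmin : ∀ p : ℕ, p.Prime → ¬ ((p : ℤ) ^ 4 ∣ A ∧ (p : ℤ) ^ 6 ∣ B))
    (hmin' : ∀ p : ℕ, p.Prime → ¬ ((p : ℤ) ^ 4 ∣ A' ∧ (p : ℤ) ^ 6 ∣ B')) : A = A' ∧ B = B' := by
  have hd0 : 0 < Int.gcd k k' := Int.gcd_pos_of_ne_zero_left _ hk
  obtain ⟨j, j', hj, hgj, hgj'⟩ := Int.exists_gcd_one hd0
  set d : ℤ := (Int.gcd k k' : ℤ) with hd
  have hdpos : 0 < d := by rw [hd]; exact_mod_cast hd0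
  have hco : IsCoprime j j' := Int.isCoprime_iff_gcd_eq_one.mpr hj
  have e1 : j' ^ 4 * A = j ^ 4 * A' := by
    have : d ^ 4 * (j' ^ 4 * A) = d ^ 4 * (j ^ 4 * A') := by
      calc d ^ 4 * (j' ^ 4 * A) = (j' * d) ^ 4 * A := by ring
        _ = (j * d) ^ 4 * A' := by rw [← hgj, ← hgj']; exact h4
        _ = d ^ 4 * (j ^ 4 * A') := by ring
    exact mul_left_cancel₀ (pow_ne_zero 4 hdpos.ne') this
  have e2 : j' ^ 6 * B = j ^ 6 * B' := by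
    have : d ^ 6 * (j' ^ 6 * B) = d ^ 6 * (j ^ 6 * B') := by
      calc d ^ 6 * (j' ^ 6 * B) = (j' * d) ^ 6 * B := by ring
        _ = (j * d) ^ 6 * B' := by rw [← hgj, ← hgj']; exact h6
        _ = d ^ 6 * (j ^ 6 * B') := by ring
    exact mul_left_cancel₀ (pow_ne_zero 6 hdpos.ne') this
  have unit : ∀ {j j' A B A' B' : ℤ}, IsCoprime j j' → j' ^ 4 * A = j ^ 4 * A' →
      j' ^ 6 * B = j ^ 6 * B' →
      (∀ p : ℕ, p.Prime → ¬ ((p : ℤ) ^ 4 ∣ A ∧ (p : ℤ) ^ 6 ∣ B)) → j.natAbs = 1 := by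
    intro j j' A B A' B' hco e1 e2 hmin
    have d1 : j ^ 4 ∣ A := by
      have : j ^ 4 ∣ j' ^ 4 * A := ⟨A', e1⟩
      exact (hco.pow (m := 4) (n := 4)).dvd_of_dvd_mul_left this
    have d2 : j ^ 6 ∣ B := by
      have : j ^ 6 ∣ j' ^ 6 * B := ⟨B', e2⟩
      exact (hco.pow (m := 6) (n := 6)).dvd_of_dvd_mul_left this
    by_contra h
    obtain ⟨p, hp, hpk⟩ := Nat.exists_prime_and_dvd h
    have hpk' : (p : ℤ) ∣ j := Int.natCast_dvd.mpr hpk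
    exact hmin p hp ⟨(pow_dvd_pow_of_dvd hpk' 4).trans d1, (pow_dvd_pow_of_dvd hpk' 6).trans d2⟩
  have u1 := unit hco e1 e2 hmin
  have u2 := unit hco.symm e1.symm e2.symm hmin'
  have p4 : ∀ x : ℤ, x.natAbs = 1 → x ^ 4 = 1 ∧ x ^ 6 = 1 := by
    intro x hx
    rcases Int.natAbs_eq_iff.1 hx with h | h <;> subst h <;> norm_num
  rw [(p4 j u1).1, (p4 j' u2).1, one_mul, one_mul] at e1
  rw [(p4 j u1).2, (p4 j' u2).2, one_mul, one_mul] at e2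
  exact ⟨e1, e2⟩

/-- the curve `(A, B)` has a point of order 4 with the invariants `s`, `t` -/
structure Rel4 (A B s t e : ℤ) : Prop where
  he : 3 * e = s ^ 2 - 2 * t
  hA : A = t ^ 2 - 3 * e ^ 2
  hB : B = 2 * e ^ 3 - t ^ 2 * e
  hs : s ≠ 0
  ht : t ≠ 0
  hd : s ^ 2 - 4 * t ≠ 0

/-- the ranks of the curve and of the 2-isogenous curve -/
theorem Rel4.rk {A B s t e : ℤ} (h : Rel4 A B s t e) :
    Module.finrank ℤ (Sh A B).toAffine.Point ≤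
      Module.finrank ℤ (EAB (s ^ 2) (s ^ 2 - 4 * t)).toAffine.Point := by
  have hs : (s : ℚ) ≠ 0 := by exact_mod_cast h.hs
  have ht : (t : ℚ) ≠ 0 := by exact_mod_cast h.ht
  have hd : (s : ℚ) ^ 2 - 4 * t ≠ 0 := by exact_mod_cast h.hd
  have he : 3 * (e : ℚ) = s ^ 2 - 2 * t := by exact_mod_cast h.he
  have hA : (A : ℚ) = t ^ 2 - 3 * e ^ 2 := by exact_mod_cast h.hA
  have hB : (B : ℚ) = 2 * e ^ 3 - t ^ 2 * e := by exact_mod_cast h.hB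
  obtain ⟨φ⟩ := Pool.Agent.W261.RT.iso 0 A B e 1 one_ne_zero
  have hW : (⟨0, ((0 : ℚ) + 3 * e) / (1 : ℚ) ^ 2, 0,
      ((A : ℚ) + 2 * e * 0 + 3 * (e : ℚ) ^ 2) / (1 : ℚ) ^ 4,
      ((B : ℚ) + e * A + (e : ℚ) ^ 2 * 0 + (e : ℚ) ^ 3) / (1 : ℚ) ^ 6⟩ : WeierstrassCurve ℚ)
      = ⟨0, (s : ℚ) ^ 2 - 2 * t, 0, (t : ℚ) ^ 2, 0⟩ := by
    simp only [WeierstrassCurve.mk.injEq, true_and]
    refine ⟨?_, ?_, ?_⟩
    · rw [← he]; ring
    · rw [hA]; ring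
    · rw [hA, hB]; ring
  rw [hW] at φ
  have h1 : Module.finrank ℤ (Sh A B).toAffine.Point =
      Module.finrank ℤ (⟨0, (s : ℚ) ^ 2 - 2 * t, 0, (t : ℚ) ^ 2, 0⟩ :
        WeierstrassCurve ℚ).toAffine.Point := LinearEquiv.finrank_eq φ.toIntLinearEquiv
  rw [h1]
  have hfg := (Pool.Agent.W214.RK.half (s ^ 2) (s ^ 2 - 4 * t) (pow_ne_zero 2 h.hs) h.hd (by
    intro h0
    apply h.ht
    linarith)).1
  refine rk_le (a := (s : ℚ) ^ 2 - 2 * t) (b := (t : ℚ) ^ 2) (pow_ne_zero 2 ht) ?_ ?_ hfg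
  · have : ((s : ℚ) ^ 2 - 2 * t) ^ 2 - 4 * (t : ℚ) ^ 2 = s ^ 2 * (s ^ 2 - 4 * t) := by ring
    rw [this]
    exact mul_ne_zero (pow_ne_zero 2 hs) hd
  · unfold EAB
    simp only [WeierstrassCurve.mk.injEq, true_and, and_true]
    refine ⟨?_, ?_⟩
    · push_cast; ring
    · push_cast; ring

/-- the bounds -/
theorem Rel4.bound {A B s t e : ℤ} (h : Rel4 A B s t e) {H : ℕ} (h4 : 4 * |A| ^ 3 ≤ H)
    (h27 : 27 * B ^ 2 ≤ H) :
    e ^ 6 ≤ 8 * H ∧ t ^ 6 ≤ 868 * H ∧ s ^ 12 ≤ 2000000 * H := by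
  have hA3 : |A| ^ 3 ≤ H := by
    have : 0 ≤ |A| ^ 3 := by positivity
    linarith
  have hB2 : B ^ 2 ≤ H := by
    have : 0 ≤ B ^ 2 := by positivity
    linarith
  have hroot : e ^ 3 + A * e + B = 0 := by rw [h.hA, h.hB]; ring
  have hH : (0 : ℤ) ≤ H := Int.natCast_nonneg H
  have he : e ^ 6 ≤ 8 * H := by
    rcases le_or_gt (e ^ 2) (2 * |A|) with h1 | h1
    · have h2 : (e ^ 2) ^ 3 ≤ (2 * |A|) ^ 3 := pow_le_pow_left₀ (sq_nonneg e) h1 3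
      calc e ^ 6 = (e ^ 2) ^ 3 := by ring
        _ ≤ (2 * |A|) ^ 3 := h2
        _ = 8 * |A| ^ 3 := by ring
        _ ≤ _ := by linarith
    · have h2 : |e| ^ 3 ≤ |A| * |e| + |B| := by
        have : e ^ 3 = -(A * e + B) := by linarith
        rw [← abs_pow, this, abs_neg, ← abs_mul]
        exact abs_add_le _ _
      have h3 : |A| * |e| * 2 ≤ |e| ^ 3 := by
        have h5 : |e| ^ 3 = e ^ 2 * |e| := by rw [← sq_abs e]; ring
        rw [h5]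
        have := mul_le_mul_of_nonneg_right h1.le (abs_nonneg e)
        linarith
      have h6 : |e| ^ 3 ≤ 2 * |B| := by linarith
      have h7 : (|e| ^ 3) ^ 2 ≤ (2 * |B|) ^ 2 := pow_le_pow_left₀ (by positivity) h6 2
      have h8 : e ^ 6 = (|e| ^ 3) ^ 2 := by
        rw [← pow_mul]
        exact (Even.pow_abs (by decide) e).symm
      rw [h8]
      calc _ ≤ (2 * |B|) ^ 2 := h7
        _ = 4 * B ^ 2 := by rw [mul_pow, sq_abs]; norm_num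
        _ ≤ _ := by linarith
  -- convexity
  have cube : ∀ x y : ℤ, 0 ≤ x → 0 ≤ y → (x + y) ^ 3 ≤ 4 * (x ^ 3 + y ^ 3) := by
    intro x y hx hy
    nlinarith [mul_nonneg (add_nonneg hx hy) (sq_nonneg (x - y))]
  have ht : t ^ 6 ≤ 868 * H := by
    have h1 : t ^ 2 ≤ |A| + 3 * e ^ 2 := by
      have := le_abs_self A
      linarith [h.hA]
    have h2 : (t ^ 2) ^ 3 ≤ (|A| + 3 * e ^ 2) ^ 3 := pow_le_pow_left₀ (sq_nonneg t) h1 3
    have h3 := cube |A| (3 * e ^ 2) (abs_nonneg A) (by positivity)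
    calc t ^ 6 = (t ^ 2) ^ 3 := by ring
      _ ≤ 4 * (|A| ^ 3 + (3 * e ^ 2) ^ 3) := h2.trans h3
      _ = 4 * |A| ^ 3 + 108 * e ^ 6 := by ring
      _ ≤ _ := by linarith
  refine ⟨he, ht, ?_⟩
  have h1 : s ^ 2 = 3 * e + 2 * t := by linarith [h.he]
  have sq2 : ∀ x y : ℤ, (x + y) ^ 2 ≤ 2 * (x ^ 2 + y ^ 2) := by
    intro x y
    nlinarith [sq_nonneg (x - y)]
  have h2 : (s ^ 2) ^ 6 ≤ 32 * ((3 * e) ^ 6 + (2 * t) ^ 6) := by
    rw [h1]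
    have a1 := sq2 (3 * e) (2 * t)
    have a2 : ((3 * e + 2 * t) ^ 2) ^ 3 ≤ (2 * ((3 * e) ^ 2 + (2 * t) ^ 2)) ^ 3 :=
      pow_le_pow_left₀ (sq_nonneg _) a1 3
    have a3 := cube ((3 * e) ^ 2) ((2 * t) ^ 2) (sq_nonneg _) (sq_nonneg _)
    calc (3 * e + 2 * t) ^ 6 = ((3 * e + 2 * t) ^ 2) ^ 3 := by ring
      _ ≤ (2 * ((3 * e) ^ 2 + (2 * t) ^ 2)) ^ 3 := a2
      _ = 8 * ((3 * e) ^ 2 + (2 * t) ^ 2) ^ 3 := by ring
      _ ≤ 8 * (4 * (((3 * e) ^ 2) ^ 3 + ((2 * t) ^ 2) ^ 3)) := by linarith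
      _ = _ := by ring
  calc s ^ 12 = (s ^ 2) ^ 6 := by ring
    _ ≤ 32 * ((3 * e) ^ 6 + (2 * t) ^ 6) := h2
    _ = 23328 * e ^ 6 + 2048 * t ^ 6 := by ring
    _ ≤ 23328 * (8 * H) + 2048 * (868 * H) := by linarith
    _ ≤ _ := by linarith

/-- two curves with proportional invariants -/
theorem Rel4.unique {A B s t e A' B' s' t' e' k k' : ℤ} (h : Rel4 A B s t e)
    (h' : Rel4 A' B' s' t' e') (hk : k ≠ 0) (hk' : k' ≠ 0)
    (hs : k' ^ 2 * s ^ 2 = k ^ 2 * s' ^ 2) (ht : k' ^ 2 * t = k ^ 2 * t')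
    (hmin : ∀ p : ℕ, p.Prime → ¬ ((p : ℤ) ^ 4 ∣ A ∧ (p : ℤ) ^ 6 ∣ B))
    (hmin' : ∀ p : ℕ, p.Prime → ¬ ((p : ℤ) ^ 4 ∣ A' ∧ (p : ℤ) ^ 6 ∣ B')) : A = A' ∧ B = B' := by
  have he : k' ^ 2 * e = k ^ 2 * e' := by
    have h1 : 3 * (k' ^ 2 * e) = 3 * (k ^ 2 * e') := by
      calc 3 * (k' ^ 2 * e) = k' ^ 2 * (3 * e) := by ring
        _ = k' ^ 2 * s ^ 2 - 2 * (k' ^ 2 * t) := by rw [h.he]; ring
        _ = k ^ 2 * s' ^ 2 - 2 * (k ^ 2 * t') := by rw [hs, ht]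
        _ = k ^ 2 * (3 * e') := by rw [h'.he]; ring
        _ = _ := by ring
    linarith
  apply min_unique hk hk' _ _ hmin hmin'
  · calc k' ^ 4 * A = (k' ^ 2 * t) ^ 2 - 3 * (k' ^ 2 * e) ^ 2 := by rw [h.hA]; ring
      _ = (k ^ 2 * t') ^ 2 - 3 * (k ^ 2 * e') ^ 2 := by rw [ht, he]
      _ = _ := by rw [h'.hA]; ring
  · calc k' ^ 6 * B = 2 * (k' ^ 2 * e) ^ 3 - (k' ^ 2 * t) ^ 2 * (k' ^ 2 * e) := by rw [h.hB]; ring
      _ = 2 * (k ^ 2 * e') ^ 3 - (k ^ 2 * t') ^ 2 * (k ^ 2 * e') := by rw [ht, he]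
      _ = _ := by rw [h'.hB]; ring

/-- a point whose double is of order 2 -/
theorem four_of {A B : ℤ} (hD : 4 * A ^ 3 + 27 * B ^ 2 ≠ 0) {x y e : ℚ} (hy : y ≠ 0)
    (hxy : y ^ 2 = x ^ 3 + A * x + B) (hr : e ^ 3 + A * e + B = 0)
    (h1 : e = ((3 * x ^ 2 + A) / (2 * y)) ^ 2 - 2 * x) :
    ∃ s t E : ℤ, Rel4 A B s t E ∧ (E : ℚ) = e ∧ x = e + t ∧ y = s * t := by
  have s1 := root_sq hy hxy hr h1
  have hnum : x ^ 2 - 2 * e * x - A - 2 * e ^ 2 = 0 := by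
    rw [sub_self] at s1
    have h2 := pow_eq_zero_iff two_ne_zero |>.1 s1.symm
    rcases div_eq_zero_iff.1 h2 with h3 | h3
    · exact h3
    · exfalso
      exact hy (by linarith)
  obtain ⟨E, hE⟩ := int_root hr
  -- `t = x - e`
  have ht2 : (3 * (E : ℚ) ^ 2 + A) = (x - e) ^ 2 := by rw [hE]; linear_combination (-1) * hnum
  obtain ⟨t, ht⟩ := int_sqrt (M := 3 * E ^ 2 + A) (m := x - e) (by push_cast; exact ht2)
  have hx : x = e + t := by rw [ht]; ring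
  have ht3 : (t : ℚ) ^ 2 = 3 * e ^ 2 + A := by rw [ht, ← hE] ; rw [← hE] at ht2; linarith
  have hB : (B : ℚ) = -e ^ 3 - A * e := by linarith
  have hy2 : y ^ 2 = (t : ℚ) ^ 2 * (3 * e + 2 * t) := by
    rw [hxy, hx, hB]
    have : (A : ℚ) = t ^ 2 - 3 * e ^ 2 := by linarith
    rw [this]
    ring
  have ht0 : (t : ℚ) ≠ 0 := by
    intro h0
    apply hy
    rw [h0] at hy2
    have : y ^ 2 = 0 := by rw [hy2]; ring
    exact (pow_eq_zero_iff two_ne_zero).1 this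
  have hs2 : 3 * e + 2 * t = (y / t) ^ 2 := by
    rw [div_pow, hy2]
    field_simp
  obtain ⟨s, hs⟩ := int_sqrt (M := 3 * E + 2 * t) (m := y / t) (by
    push_cast
    rw [hE]
    exact hs2)
  have hys : y = s * t := by rw [hs]; field_simp
  have e1 : 3 * E = s ^ 2 - 2 * t := by
    have : ((3 * E : ℤ) : ℚ) = ((s ^ 2 - 2 * t : ℤ) : ℚ) := by
      push_cast
      rw [hs, hE, ← hs2]
      ring
    exact_mod_cast this
  have e2 : A = t ^ 2 - 3 * E ^ 2 := by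
    have : ((A : ℤ) : ℚ) = ((t ^ 2 - 3 * E ^ 2 : ℤ) : ℚ) := by
      push_cast
      rw [ht3, hE]
      ring
    exact_mod_cast this
  have e3 : B = 2 * E ^ 3 - t ^ 2 * E := by
    have : ((B : ℤ) : ℚ) = ((2 * E ^ 3 - t ^ 2 * E : ℤ) : ℚ) := by
      push_cast
      rw [ht3, hE, hB]
      ring
    exact_mod_cast this
  have hs0 : s ≠ 0 := by
    rintro rfl
    apply hy
    rw [hys]
    simp
  have ht0' : t ≠ 0 := by exact_mod_cast ht0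
  refine ⟨s, t, E, ⟨e1, e2, e3, hs0, ht0', ?_⟩, hE, hx, hys⟩
  intro h0
  apply hD
  -- the discriminant vanishes
  have h5 : s ^ 2 = 4 * t := by linarith
  have h6 : 3 * E = 2 * t := by rw [e1, h5]; ring
  have h7 : 9 * (4 * A ^ 3 + 27 * B ^ 2) = 0 := by
    have a1 : 4 * A ^ 3 + 27 * B ^ 2 = t ^ 4 * (4 * t ^ 2 - 9 * E ^ 2) := by
      rw [e2, e3]; ring
    rw [a1]
    have a2 : (4 * t ^ 2 - 9 * E ^ 2) = (2 * t) ^ 2 - (3 * E) ^ 2 := by ring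
    rw [a2, h6]
    ring
  linarith

end Pool.Agent.R421.HF
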