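import Pool.Agent.W571.RT.LocM

/-!
# Project HF: the primes without a contribution

At an odd prime with nonsplit multiplicative reduction and an even exponent, the valuations of
`x - e` are even for all the points.
-/

set_option autoImplicit false
set_option linter.all false

namespace Pool.Agent.R421.HF

open Pool.Agent.W262.RK Pool.Agent.W22.RK Pool.Agent.W342.RK2 Pool.Agent.W307.RT
open Pool.Agent.W571.RT

section loc

variable {p : ℕ} [hp : Fact p.Prime]

/-- the main local computation -/
lemma neug (hp2 : p ≠ 2) {A B : ℤ} (hA : (p : ℤ) ∣ A) (hB : ¬ (p : ℤ) ∣ B) (hA0 : A ≠ 0)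
    (hev : Even (padicValInt p A)) (hns : jacobiSym (-B) p ≠ 1) (x y : ℚ) (hy : y ≠ 0)
    (hxy : y ^ 2 = x * (x - A) * (x - B)) :
    Even (padicValRat p x) ∧ Even (padicValRat p (x - A)) ∧ Even (padicValRat p (x - B)) := by
  have hy2 : y ^ 2 ≠ 0 := pow_ne_zero 2 hy
  rw [hxy] at hy2
  have hx : x ≠ 0 := left_ne_zero_of_mul (left_ne_zero_of_mul hy2)
  have hxA : x - A ≠ 0 := right_ne_zero_of_mul (left_ne_zero_of_mul hy2)
  have hxB : x - B ≠ 0 := right_ne_zero_of_mul hy2
  have hAq : (A : ℚ) ≠ 0 := by exact_mod_cast hA0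
  have hnB : ¬ (p : ℤ) ∣ -B := not_dvd_neg hB
  have hBq : (-B : ℚ) ≠ 0 := by
    intro h
    apply hB
    have : B = 0 := by
      have : (B : ℚ) = 0 := by linarith
      exact_mod_cast this
    simp [this]
  have vA : padicValRat p (A : ℚ) = (padicValInt p A : ℤ) := padicValRat.of_int
  have vA1 : 1 ≤ padicValInt p A := by
    have := (padicValInt_dvd_iff (p := p) 1 A).1 (by simpa using hA)
    rcases this with h12 | h12
    · exact absurd h12 hA0
    · exact h12
  have vB : padicValRat p (-B : ℚ) = 0 := by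
    have := v_int (p := p) hnB
    push_cast at this
    exact this
  have hsum := v_mul3 (p := p) hx hxA hxB hxy
  -- the three valuations
  have hlt : padicValRat p x < (padicValInt p A : ℤ) →
      padicValRat p (x - A) = padicValRat p x := by
    intro h
    have := v_add (p := p) (a := x) (b := -(A : ℚ)) hx (neg_ne_zero.2 hAq)
      (by rw [← sub_eq_add_neg]; exact hxA) (by rw [v_neg, vA]; exact h)
    rwa [← sub_eq_add_neg] at this
  have hgt : (padicValInt p A : ℤ) < padicValRat p x →
      padicValRat p (x - A) = (padicValInt p A : ℤ) := by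
    intro h
    have := v_add (p := p) (a := -(A : ℚ)) (b := x) (neg_ne_zero.2 hAq) hx
      (by rw [neg_add_eq_sub]; exact hxA) (by rw [v_neg, vA]; exact h)
    rw [neg_add_eq_sub, v_neg, vA] at this
    exact this
  have hpos : 0 < padicValRat p x → padicValRat p (x - B) = 0 := by
    intro h
    have := v_add (p := p) (a := -(B : ℚ)) (b := x) hBq hx
      (by rw [neg_add_eq_sub]; exact hxB) (by rw [vB]; exact h)
    rw [neg_add_eq_sub, vB] at this
    exact this
  have hneg : padicValRat p x < 0 → padicValRat p (x - B) = padicValRat p x := by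
    intro h
    have := v_add (p := p) (a := x) (b := -(B : ℚ)) hx hBq
      (by rw [← sub_eq_add_neg]; exact hxB) (by rw [vB]; exact h)
    rwa [← sub_eq_add_neg] at this
  obtain ⟨k, hk⟩ := hev
  rcases lt_trichotomy (padicValRat p x) 0 with h | h | h
  · have h1 := hlt (by omega)
    have h2 := hneg h
    rw [h1, h2] at hsum ⊢
    have h3 : Even (padicValRat p x) := by
      rw [Int.even_iff]
      omega
    exact ⟨h3, h3, h3⟩
  · have h1 := hlt (by omega)
    rw [h1, h] at hsum ⊢
    refine ⟨Even.zero, Even.zero, ?_⟩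
    rw [Int.even_iff]
    omega
  · have h2 := hpos h
    rw [h2] at hsum ⊢
    rcases lt_trichotomy (padicValRat p x) (padicValInt p A : ℤ) with h1 | h1 | h1
    · exfalso
      apply hns
      apply jac_of_sq hnB
      have key1 : IsSquare (((x - A) * x : ℚ) : ℚ_[p]) := by
        apply near hp2 hx
        right
        have e : x - (A : ℚ) - x = -(A : ℚ) := by ring
        rw [e, v_neg, vA]
        exact h1
      have key2 : IsSquare ((x - B : ℚ) : ℚ_[p]) := by
        apply sq_div (mul_ne_zero hxA hx) _ key1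
        refine ⟨((y : ℚ) : ℚ_[p]), ?_⟩
        rw [← Rat.cast_mul]
        congr 1
        rw [← pow_two, hxy]
        ring
      have key3 : IsSquare (((x - B) * -B : ℚ) : ℚ_[p]) := by
        apply near hp2 hBq
        right
        have e : x - (B : ℚ) - -(B : ℚ) = x := by ring
        rw [e, vB]
        exact h
      have := sq_div (r := (-B : ℚ)) hxB (by rw [mul_comm]; exact key3) key2
      push_cast at this ⊢
      exact this
    · refine ⟨?_, ?_, Even.zero⟩
      · rw [h1, Int.even_iff]
        omega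
      · rw [Int.even_iff]
        omega
    · have h3 := hgt h1
      rw [h3] at hsum ⊢
      refine ⟨?_, ?_, Even.zero⟩
      · rw [Int.even_iff]
        omega
      · rw [Int.even_iff]
        omega

/-- the hypotheses for a prime without a contribution -/
def NeuM (c : Fin 4) (p : ℕ) (A B : ℤ) : Prop :=
  if c = 0 then (p : ℤ) ∣ A ∧ ¬ (p : ℤ) ∣ B ∧ Even (padicValInt p A) ∧ jacobiSym (-B) p ≠ 1
  else if c = 1 then (p : ℤ) ∣ B ∧ ¬ (p : ℤ) ∣ A ∧ Even (padicValInt p B) ∧
    jacobiSym (-A) p ≠ 1
  else (p : ℤ) ∣ A - B ∧ ¬ (p : ℤ) ∣ A ∧ Even (padicValInt p (A - B)) ∧ jacobiSym A p ≠ 1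

/-- the valuations are even at the primes without a contribution -/
theorem neum (hp2 : p ≠ 2) {c : Fin 4} {A B : ℤ} (hA0 : A ≠ 0) (hB0 : B ≠ 0) (hAB : A ≠ B)
    (h : NeuM c p A B) (x y : ℚ) (hy : y ≠ 0) (hxy : y ^ 2 = x * (x - A) * (x - B)) :
    Even (padicValRat p x) ∧ Even (padicValRat p (x - A)) := by
  unfold NeuM at h
  split_ifs at h with h0 h1
  · obtain ⟨a1, a2, a3, a4⟩ := h
    have := neug hp2 a1 a2 hA0 a3 a4 x y hy hxy
    exact ⟨this.1, this.2.1⟩
  · obtain ⟨a1, a2, a3, a4⟩ := h
    have := neug hp2 a1 a2 hB0 a3 a4 x y hy (by rw [hxy]; ring)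
    exact ⟨this.1, this.2.2⟩
  · obtain ⟨a1, a2, a3, a4⟩ := h
    have hvv : padicValInt p (B - A) = padicValInt p (A - B) := by
      unfold padicValInt
      rw [← neg_sub, Int.natAbs_neg]
    have := neug hp2 (A := B - A) (B := -A) (by rw [← neg_sub]; exact a1.neg_right)
      (not_dvd_neg a2) (sub_ne_zero.2 (Ne.symm hAB)) (by rw [hvv]; exact a3)
      (by rw [neg_neg]; exact a4) (x - A) y hy (by rw [hxy]; push_cast; ring)
    refine ⟨?_, this.1⟩
    have h3 := this.2.2
    push_cast at h3
    rwa [sub_neg_eq_add, sub_add_cancel] at h3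

end loc

end Pool.Agent.R421.HF
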