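import Pool.Agent.W214.RK2.Desc4
import Pool.Agent.R421.HF.Neu

/-!
# Project HF: the 2-descent with primes without a contribution (adapted from `W214/RK2/Desc4`)
-/

set_option autoImplicit false
set_option linter.all false

namespace Pool.Agent.R421.HF

open Finset Pool.Agent.W262.RK Pool.Agent.W599.RK Pool.Agent.W214.RK2

open Classical in
/-- the 2-descent with arbitrary local conditions, and primes without a contribution -/
theorem desc5 (m : ℕ) (L : ℕ → Bool → Bool → Bool → Bool → Prop) (A B : ℤ) (Nt : ℕ → Prop)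
    (hA : A ≠ 0) (hB : B ≠ 0) (hAB : A ≠ B) (hodd : Odd m) (hm : Squarefree m)
    (hL : ∀ p, p.Prime → p ∣ m → XC (L p))
    (hloc : ∀ (p : ℕ) [Fact p.Prime], p ∣ m → ∀ x y : ℚ, y ≠ 0 → y ^ 2 = x * (x - A) * (x - B) →
      ∀ e1 e2 : ℤ, Squarefree e1 → Squarefree e2 → IsSquare ((x * e1 : ℚ) : ℚ_[p]) →
      IsSquare (((x - A) * e2 : ℚ) : ℚ_[p]) → L p (dv p e1) (dv p e2) (sgn p e1) (sgn p e2))
    (hneu : ∀ (p : ℕ) [Fact p.Prime], Nt p → ∀ x y : ℚ, y ≠ 0 →
      y ^ 2 = x * (x - A) * (x - B) → Even (padicValRat p x) ∧ Even (padicValRat p (x - A))) :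
    2 ^ Module.finrank ℤ (EAB A B).toAffine.Point ≤
      4 ^ (((2 * A * B * (A - B)).natAbs.primeFactors.filter
        (fun q => ¬ q ∣ m ∧ ¬ Nt q)).card + 2) * NL m L := by
  obtain ⟨hfg, hhalf, hns, hcard4⟩ := Pool.Agent.W214.RK.half A B hA hB hAB
  set OP : Finset ℕ := (2 * A * B * (A - B)).natAbs.primeFactors.filter
    (fun q => ¬ q ∣ m ∧ ¬ Nt q) with hOPdef
  have hD0 : 2 * A * B * (A - B) ≠ 0 :=
    mul_ne_zero (mul_ne_zero (mul_ne_zero two_ne_zero hA) hB) (sub_ne_zero.mpr hAB)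
  have hOP : ∀ q : ℕ, q.Prime → (q : ℤ) ∣ 2 * A * B * (A - B) → ¬ q ∣ m → ¬ Nt q → q ∈ OP := by
    intro q hq hqd hqs hqn
    rw [hOPdef, Finset.mem_filter, Nat.mem_primeFactors]
    exact ⟨⟨hq, Int.natCast_dvd.mp hqd, Int.natAbs_ne_zero.mpr hD0⟩, hqs, hqn⟩
  set F : Finset (ℕ × ℕ) := (m.divisors ×ˢ m.divisors).filter (fun d : ℕ × ℕ =>
    ∀ p ∈ m.primeFactors, L p (dv p d.1) (dv p d.2) (sgn p d.1) (sgn p d.2)) with hF
  have hFcard : F.card = NL m L := by
    unfold NL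
    rw [hF]
  -- the trivial points
  set T0s : Set (EAB A B).toAffine.Point :=
    {P | P = 0 ∨ ∃ (x : ℚ) (h : (EAB A B).toAffine.Nonsingular x 0),
      P = WeierstrassCurve.Affine.Point.some x 0 h} with hT0s
  have hT0fin : T0s.Finite := by
    have hsub : T0s ⊆ insert 0 ((fun x : ℚ =>
        if h : (EAB A B).toAffine.Nonsingular x 0 then
          WeierstrassCurve.Affine.Point.some x 0 h else 0) '' ({0, (A : ℚ), (B : ℚ)} : Set ℚ)) := by
      rintro P (rfl | ⟨x, h, rfl⟩)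
      · exact Set.mem_insert _ _
      · right
        refine ⟨x, ?_, ?_⟩
        · have h5 := (hns x 0).mp h
          have h6 : x * (x - A) * (x - B) = 0 := by rw [← h5]; norm_num
          rcases mul_eq_zero.mp h6 with h7 | h7
          · rcases mul_eq_zero.mp h7 with h8 | h8
            · left; exact h8
            · right; left; exact sub_eq_zero.mp h8
          · right; right; exact sub_eq_zero.mp h7
        · show (if h : (EAB A B).toAffine.Nonsingular x 0 then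
            WeierstrassCurve.Affine.Point.some x 0 h else 0) = _
          rw [dif_pos h]
    exact ((Set.toFinite _).image _ |>.insert _).subset hsub
  set T0 : Finset (EAB A B).toAffine.Point := hT0fin.toFinset with hT0
  have hT0card : T0.card ≤ 4 := by
    have : T0s.ncard = T0.card := Set.ncard_eq_toFinset_card T0s hT0fin
    rw [← this]; exact hcard4
  -- the other points
  let pt : X A B → (EAB A B).toAffine.Point := fun P =>
    WeierstrassCurve.Affine.Point.some P.1.1 P.1.2 ((hns _ _).mpr P.2.2)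
  have hpt : ∀ (x y : ℚ) (h : (EAB A B).toAffine.Nonsingular x y) (hy : y ≠ 0),
      (WeierstrassCurve.Affine.Point.some x y h : (EAB A B).toAffine.Point) =
        pt ⟨(x, y), hy, (hns x y).mp h⟩ := fun x y h hy => rfl
  have hNL1 : 1 ≤ NL m L := one_le_NL m hm.ne_zero L hL
  have hx0 : ∀ P : X A B, P.1.1 ≠ 0 := fun P => w_ne_zero P.2.1 P.2.2 2
  have hxA0 : ∀ P : X A B, P.1.1 - A ≠ 0 := fun P => w_ne_zero P.2.1 P.2.2 1
  -- comparison of two points with the same outer data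
  have hcmp : ∀ P P' : X A B, outg OP A B P = outg OP A B P' →
      (0 < P.1.1 ↔ 0 < P'.1.1) ∧ (0 < P.1.1 - A ↔ 0 < P'.1.1 - A) ∧
      (∀ q : ℕ, q.Prime → ¬ q ∣ m →
        (Even (padicValRat q P.1.1) ↔ Even (padicValRat q P'.1.1)) ∧
        (Even (padicValRat q (P.1.1 - A)) ↔ Even (padicValRat q (P'.1.1 - A)))) := by
    intro P P' ho
    have h1 : decide (0 < P.1.1) = decide (0 < P'.1.1) := congrArg Prod.fst ho
    have h23 := congrArg Prod.snd ho
    have h2 : decide (0 < P.1.1 - A) = decide (0 < P'.1.1 - A) := congrArg Prod.fst h23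
    have h3 := congrArg Prod.snd h23
    refine ⟨decide_eq_decide.mp h1, decide_eq_decide.mp h2, fun q hq hqm => ?_⟩
    by_cases hN : Nt q
    · have : Fact q.Prime := ⟨hq⟩
      obtain ⟨a1, a2⟩ := hneu q hN P.1.1 P.1.2 P.2.1 P.2.2
      obtain ⟨b1, b2⟩ := hneu q hN P'.1.1 P'.1.2 P'.2.1 P'.2.2
      exact ⟨⟨fun _ => b1, fun _ => a1⟩, ⟨fun _ => b2, fun _ => a2⟩⟩
    by_cases hD : (q : ℤ) ∣ 2 * A * B * (A - B)
    · have h4 := congrFun h3 ⟨q, hOP q hq hD hqm hN⟩
      have h5 : decide (Even (padicValRat q P.1.1)) = decide (Even (padicValRat q P'.1.1)) :=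
        congrArg Prod.fst h4
      have h6 : decide (Even (padicValRat q (P.1.1 - A))) =
          decide (Even (padicValRat q (P'.1.1 - A))) := congrArg Prod.snd h4
      exact ⟨decide_eq_decide.mp h5, decide_eq_decide.mp h6⟩
    · have : Fact q.Prime := ⟨hq⟩
      obtain ⟨a1, a2, -⟩ := Pool.Agent.W22.RK.good q A B hD P.1.1 P.1.2 P.2.1 P.2.2
      obtain ⟨b1, b2, -⟩ := Pool.Agent.W22.RK.good q A B hD P'.1.1 P'.1.2 P'.2.1 P'.2.2
      exact ⟨⟨fun _ => b1, fun _ => a1⟩, ⟨fun _ => b2, fun _ => a2⟩⟩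
  have hsqs : ∀ P P' : X A B, outg OP A B P = outg OP A B P' →
      IsSquare (P.1.1 * P'.1.1 * (dd m P.1.1 P'.1.1 : ℚ)) ∧
      IsSquare ((P.1.1 - A) * (P'.1.1 - A) * (dd m (P.1.1 - A) (P'.1.1 - A) : ℚ)) := by
    intro P P' ho
    obtain ⟨c1, c2, c3⟩ := hcmp P P' ho
    exact ⟨dd_sq m hm _ _ (hx0 P) (hx0 P') c1 (fun q hq hqm => (c3 q hq hqm).1),
      dd_sq m hm _ _ (hxA0 P) (hxA0 P') c2 (fun q hq hqm => (c3 q hq hqm).2)⟩
  have hFmem : ∀ P P' : X A B, outg OP A B P = outg OP A B P' →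
      (dd m P.1.1 P'.1.1, dd m (P.1.1 - A) (P'.1.1 - A)) ∈ F := by
    intro P P' ho
    obtain ⟨s1, s2⟩ := hsqs P P' ho
    rw [hF, Finset.mem_filter, Finset.mem_product]
    refine ⟨⟨Nat.mem_divisors.mpr ⟨dd_dvd m hm _ _, hm.ne_zero⟩,
      Nat.mem_divisors.mpr ⟨dd_dvd m hm _ _, hm.ne_zero⟩⟩, fun p hp => ?_⟩
    rw [Nat.mem_primeFactors] at hp
    have : Fact p.Prime := ⟨hp.1⟩
    obtain ⟨e1, he1, hxe1⟩ := exists_rep P.1.1 (hx0 P)
    obtain ⟨e2, he2, hxe2⟩ := exists_rep (P.1.1 - A) (hxA0 P)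
    obtain ⟨f1, hf1, hxf1⟩ := exists_rep P'.1.1 (hx0 P')
    obtain ⟨f2, hf2, hxf2⟩ := exists_rep (P'.1.1 - A) (hxA0 P')
    have l1 := hloc p hp.2.1 P.1.1 P.1.2 P.2.1 P.2.2 e1 e2 he1 he2
      (hxe1.map (Rat.castHom ℚ_[p])) (hxe2.map (Rat.castHom ℚ_[p]))
    have l2 := hloc p hp.2.1 P'.1.1 P'.1.2 P'.2.1 P'.2.2 f1 f2 hf1 hf2
      (hxf1.map (Rat.castHom ℚ_[p])) (hxf2.map (Rat.castHom ℚ_[p]))
    obtain ⟨k1, k2⟩ := dd_key m hm _ _ (hx0 P) (hx0 P') s1 e1 f1 he1 hf1 hxe1 hxf1 p hp.1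
    obtain ⟨k3, k4⟩ := dd_key m hm _ _ (hxA0 P) (hxA0 P') s2 e2 f2 he2 hf2 hxe2 hxf2 p hp.1
    show L p (dv p (dd m P.1.1 P'.1.1)) (dv p (dd m (P.1.1 - A) (P'.1.1 - A)))
      (sgn p (dd m P.1.1 P'.1.1)) (sgn p (dd m (P.1.1 - A) (P'.1.1 - A)))
    rw [k1, k2, k3, k4]
    exact (hL p hp.1 hp.2.1).2 _ _ _ _ _ _ _ _ l1 l2
  -- the set of representatives
  obtain ⟨T1, hT1card, hT1⟩ : ∃ T1 : Finset (EAB A B).toAffine.Point,
      T1.card ≤ 4 ^ (OP.card + 1) * NL m L ∧
      ∀ P : X A B, ∃ t ∈ T1, ∃ q : (EAB A B).toAffine.Point, pt P = t + (q + q) := by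
    by_cases hX : Nonempty (X A B)
    · let rep : Out OP → X A B := Function.invFun (outg OP A B)
      have hrep : ∀ P : X A B, outg OP A B (rep (outg OP A B P)) = outg OP A B P := fun P =>
        Function.invFun_eq ⟨P, rfl⟩
      let key : X A B → Out OP × (ℕ × ℕ) := fun P =>
        (outg OP A B P, (dd m P.1.1 (rep (outg OP A B P)).1.1,
          dd m (P.1.1 - A) ((rep (outg OP A B P)).1.1 - A)))
      let T1 : Finset (EAB A B).toAffine.Point :=
        ((Finset.univ : Finset (Out OP)) ×ˢ F).image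
          (fun k => pt (Function.invFun key k))
      refine ⟨T1, ?_, ?_⟩
      · refine Finset.card_image_le.trans ?_
        rw [Finset.card_product, Finset.card_univ, card_out, hFcard]
      · intro P
        have hkeyF : key P ∈ (Finset.univ : Finset (Out OP)) ×ˢ F := by
          rw [Finset.mem_product]
          exact ⟨Finset.mem_univ _, hFmem P _ (hrep P).symm⟩
        set P2 : X A B := Function.invFun key (key P) with hP2
        have hkey2 : key P2 = key P := Function.invFun_eq ⟨P, rfl⟩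
        have ho2 : outg OP A B P2 = outg OP A B P := congrArg Prod.fst hkey2
        have ht1 : dd m P2.1.1 (rep (outg OP A B P2)).1.1 =
          dd m P.1.1 (rep (outg OP A B P)).1.1 := congrArg (fun z => z.2.1) hkey2
        have ht2 : dd m (P2.1.1 - A) ((rep (outg OP A B P2)).1.1 - A) =
          dd m (P.1.1 - A) ((rep (outg OP A B P)).1.1 - A) := congrArg (fun z => z.2.2) hkey2
        set R : X A B := rep (outg OP A B P) with hR
        rw [ho2] at ht1 ht2
        obtain ⟨s1, s2⟩ := hsqs P R (hrep P).symm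
        obtain ⟨s3, s4⟩ := hsqs P2 R (ho2.trans (hrep P).symm)
        rw [ht1] at s3
        rw [ht2] at s4
        have canc : ∀ a b r : ℚ, ∀ d : ℕ, r ≠ 0 → d ≠ 0 → IsSquare (a * r * (d : ℚ)) →
            IsSquare (b * r * (d : ℚ)) → IsSquare (a * b) := by
          intro a b r d hr hd h1 h2
          have hd' : (d : ℚ) ≠ 0 := by exact_mod_cast hd
          apply Pool.Agent.W599.RK.IsSquare.cancel (a := (r * d) ^ 2) (IsSquare.sq _)
          · have h3 := h1.mul h2
            have e : (r * (d : ℚ)) ^ 2 * (a * b) = a * r * d * (b * r * d) := by ring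
            rw [e]; exact h3
          · exact pow_ne_zero 2 (mul_ne_zero hr hd')
        have hd1 : dd m P.1.1 R.1.1 ≠ 0 := (hm.squarefree_of_dvd (dd_dvd m hm _ _)).ne_zero
        have hd2 : dd m (P.1.1 - A) (R.1.1 - A) ≠ 0 :=
          (hm.squarefree_of_dvd (dd_dvd m hm _ _)).ne_zero
        have q1 : IsSquare (P.1.1 * P2.1.1) := canc _ _ _ _ (hx0 R) hd1 s1 s3
        have q2 : IsSquare ((P.1.1 - A) * (P2.1.1 - A)) := canc _ _ _ _ (hxA0 R) hd2 s2 s4
        have q3 : IsSquare ((P.1.1 - B) * (P2.1.1 - B)) := by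
          apply Pool.Agent.W599.RK.IsSquare.cancel (q1.mul q2)
          · have e : P.1.1 * P2.1.1 * ((P.1.1 - A) * (P2.1.1 - A)) * ((P.1.1 - B) * (P2.1.1 - B)) =
                (P.1.2 * P2.1.2) ^ 2 := by
              rw [mul_pow, P.2.2, P2.2.2]; ring
            rw [e]
            exact IsSquare.sq _
          · exact mul_ne_zero (mul_ne_zero (hx0 P) (hx0 P2)) (mul_ne_zero (hxA0 P) (hxA0 P2))
        obtain ⟨q, hq⟩ := hhalf P.1.1 P.1.2 P2.1.1 P2.1.2 ((hns _ _).mpr P.2.2)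
          ((hns _ _).mpr P2.2.2) P.2.1 P2.2.1 q1 q2 q3
        exact ⟨pt P2, Finset.mem_image.mpr ⟨key P, hkeyF, rfl⟩, q, hq⟩
    · refine ⟨∅, by simp, fun P => absurd ⟨P⟩ hX⟩
  have hfin := Pool.Agent.W505.RK.rkb (EAB A B).toAffine.Point hfg
    (4 ^ (OP.card + 2) * NL m L) (T0 ∪ T1)
    (by
      refine (Finset.card_union_le _ _).trans ?_
      have e1 : 4 ^ (OP.card + 2) = 4 * 4 ^ (OP.card + 1) := by rw [pow_succ]; ring
      have e2 : 4 ≤ 4 ^ (OP.card + 1) := by
        calc 4 = 4 ^ 1 := by norm_num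
          _ ≤ 4 ^ (OP.card + 1) := Nat.pow_le_pow_right (by norm_num) (by omega)
      have e3 : 4 ^ (OP.card + 1) ≤ 4 ^ (OP.card + 1) * NL m L :=
        Nat.le_mul_of_pos_right _ hNL1
      rw [e1, mul_assoc]
      omega)
    (by
      intro g
      match g with
      | 0 =>
        refine ⟨0, Finset.mem_union_left _ ?_, 0, by simp⟩
        rw [hT0, Set.Finite.mem_toFinset]
        exact Or.inl rfl
      | WeierstrassCurve.Affine.Point.some x y h =>
        by_cases hy : y = 0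
        · subst hy
          refine ⟨WeierstrassCurve.Affine.Point.some x 0 h, Finset.mem_union_left _ ?_, 0, by simp⟩
          rw [hT0, Set.Finite.mem_toFinset]
          exact Or.inr ⟨x, h, rfl⟩
        · obtain ⟨t, ht, q, hq⟩ := hT1 ⟨(x, y), hy, (hns x y).mp h⟩
          exact ⟨t, Finset.mem_union_right _ ht, q, by rw [hpt x y h hy]; exact hq⟩)
  exact hfin

end Pool.Agent.R421.HF
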