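import Pool.Agent.R421.HF.Rnk
import Pool.Agent.R421.UR.MdlF
import Pool.Agent.TH841.PT.SVP
import Pool.Agent.TH841.PT.CNTP
import Pool.Agent.W29.RT.CNT2
import Pool.Agent.W216.RT.AVH
import Pool.Agent.Y515.Z8.Cnt

/-!
# Project HF: families of elliptic curves with full 2-torsion given by binary forms

The primes that divide a value of the form `j` have a type (an element of `Ty`), or no type: then
they do not contribute to the Selmer group.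
-/

set_option autoImplicit false
set_option linter.all false

namespace Pool.Agent.R421.HF

open Finset Pool.Agent.W262.RK Pool.Agent.W307.RT Pool.Agent.TH841.PT

/-- the data of a family -/
structure HFam (J : Type) where
  /-- the forms -/
  F : ℤ → ℤ → J → ℤ
  /-- the classes -/
  cls : J → Fin 4
  /-- the first root -/
  A : ℤ → ℤ → ℤ
  /-- the second root -/
  B : ℤ → ℤ → ℤ
  /-- the slope of the lines -/
  κ : ℤ
  /-- the larger primes are good -/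
  z1 : ℕ
  /-- the bound for the number of the roots -/
  c : ℕ
  /-- the degree -/
  dg : ℕ
  /-- the types -/
  ty : J → ℕ → Option Ty
  /-- the numbers of the roots -/
  nr : J → ℕ → ℕ

variable {J : Type} [Fintype J] [DecidableEq J]

/-- the properties of a family -/
structure HFam.OK (D : HFam J) : Prop where
  cls3 : ∀ j, D.cls j ≠ 3
  c1 : 1 ≤ D.c
  ne : ∀ a b, (∀ j, D.F a b j ≠ 0) → D.A a b ≠ 0 ∧ D.B a b ≠ 0 ∧ D.A a b ≠ D.B a b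
  cong : ∀ (p : ℕ) (w a a' : ℤ) (j : J), (p : ℤ) ∣ a - a' →
    (p : ℤ) ∣ D.F a (w + D.κ * a) j → (p : ℤ) ∣ D.F a' (w + D.κ * a') j
  un : ∀ p : ℕ, p.Prime → D.z1 < p → ∀ a b : ℤ, ¬ ((p : ℤ) ∣ a ∧ (p : ℤ) ∣ b) → ∀ j l,
    (p : ℤ) ∣ D.F a b j → (p : ℤ) ∣ D.F a b l → j = l
  ndw : ∀ p : ℕ, p.Prime → D.z1 < p → ∀ w a, IsCoprime a (w + D.κ * a) → ∀ j,
    (p : ℤ) ∣ D.F a (w + D.κ * a) j → ¬ (p : ℤ) ∣ w
  hens : ∀ p : ℕ, p.Prime → D.z1 < p → ∀ w a a', ¬ (p : ℤ) ∣ w → ∀ j, (p : ℤ) ∣ a - a' →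
    (p : ℤ) ^ 2 ∣ D.F a (w + D.κ * a) j → (p : ℤ) ^ 2 ∣ D.F a' (w + D.κ * a') j →
    (p : ℤ) ^ 2 ∣ a - a'
  card : ∀ p : ℕ, p.Prime → D.z1 < p → ∀ w N : ℤ, ¬ (p : ℤ) ∣ w → ∀ j, D.ty j p ≠ none →
    ((range p).filter (fun n : ℕ => (p : ℤ) ∣
      D.F ((n : ℤ) - N) (w + D.κ * ((n : ℤ) - N)) j)).card = D.nr j p
  nr0 : ∀ j p, D.ty j p = none → D.nr j p = 0
  nrs : ∀ p, ∑ j, D.nr j p ≤ D.c
  sz : ∀ (X : ℕ) (a b : ℤ), a.natAbs ≤ X → b.natAbs ≤ X → 1 ≤ X → ∀ j,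
    (D.F a b j).natAbs ≤ D.z1 * X ^ D.dg
  bad : ∀ p : ℕ, p.Prime → D.z1 < p → ∀ a b,
    (p : ℤ) ∣ 2 * D.A a b * D.B a b * (D.A a b - D.B a b) → ∃ j, (p : ℤ) ∣ D.F a b j
  loc : ∀ p : ℕ, p.Prime → D.z1 < p → ∀ a b, IsCoprime a b → (∀ j, D.F a b j ≠ 0) →
    ∀ j θ, (p : ℤ) ∣ D.F a b j → ¬ (p : ℤ) ^ 2 ∣ D.F a b j → D.ty j p = some θ →
    ∃ k : ℤ, ¬ (p : ℤ) ∣ k ∧ LocM (D.cls j) k p (D.A a b) (D.B a b) ∧ sg0 p k = θ 0
  neu : ∀ p : ℕ, p.Prime → D.z1 < p → ∀ a b, IsCoprime a b → (∀ j, D.F a b j ≠ 0) →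
    ∀ j, (p : ℤ) ∣ D.F a b j → D.ty j p = none → NeuM (D.cls j) p (D.A a b) (D.B a b)

/-- the parts -/
noncomputable def HFam.pr (D : HFam J) (z : ℕ) (a b : ℤ) : J × Ty → ℤ := prv D.ty z (D.F a b)

/-- the weights -/
noncomputable def HFam.g (D : HFam J) (i : J × Ty) (p : ℕ) : ℝ :=
  if D.ty i.1 p = some i.2 then (D.nr i.1 p : ℝ) else 0

/-- the total number of the roots -/
def HFam.nt (D : HFam J) (p : ℕ) : ℕ := ∑ j, D.nr j p

lemma HFam.g_nonneg (D : HFam J) (i : J × Ty) (p : ℕ) : 0 ≤ D.g i p := by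
  unfold HFam.g
  split_ifs
  · exact Nat.cast_nonneg _
  · exact le_rfl

lemma HFam.OK.nr_le {D : HFam J} (h : D.OK) (j : J) (p : ℕ) : D.nr j p ≤ D.c :=
  (single_le_sum (f := fun j => D.nr j p) (fun _ _ => Nat.zero_le _) (mem_univ j)).trans (h.nrs p)

lemma HFam.OK.g_le {D : HFam J} (h : D.OK) (i : J × Ty) (p : ℕ) : D.g i p ≤ D.c := by
  unfold HFam.g
  split_ifs
  · exact_mod_cast h.nr_le i.1 p
  · exact Nat.cast_nonneg _

lemma HFam.OK.rs_eq {D : HFam J} (h : D.OK) (j : J) (p : ℕ) :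
    Pool.Agent.R421.UR.rs D.g j p = D.nr j p := by
  unfold Pool.Agent.R421.UR.rs HFam.g
  rcases hty : D.ty j p with _ | θ
  · simp only [reduceCtorEq, if_false, sum_const_zero]
    rw [h.nr0 j p hty]
    simp
  · rw [sum_eq_single θ]
    · simp [hty]
    · intro θ' _ hne
      rw [if_neg]
      intro h1
      exact hne (Option.some.inj (hty.symm.trans h1)).symm
    · intro h1
      exact absurd (mem_univ _) h1

lemma cop_nd {a b : ℤ} (h : IsCoprime a b) {p : ℕ} (hp : p.Prime) :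
    ¬ ((p : ℤ) ∣ a ∧ (p : ℤ) ∣ b) := by
  rintro ⟨h1, h2⟩
  have h5 := h.isUnit_of_dvd' h1 h2
  rw [Int.isUnit_iff] at h5
  have := hp.one_lt
  omega

/-- the facts about the counted pairs -/
structure GG (D : HFam J) (z y : ℕ) (s v u : J × Ty → ℕ) (a b : ℤ) : Prop where
  cop : IsCoprime a b
  ne : ∀ j, D.F a b j ≠ 0
  hs : S1 z y (D.pr z a b) = s
  hv : S2 z y (D.pr z a b) = v
  hu : ∀ i, (u i : ℤ) ∣ D.pr z a b i

open Pool.Agent.W29.RT (dvd_S1 dvd_S2)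
open Pool.Agent.W372.RK2 (sq_pow_dvd)

section

variable {D : HFam J} {z y Y : ℕ} {s v u : J × Ty → ℕ} {a b a' b' w : ℤ}

lemma GG.fs (g : GG D z y s v u a b) {p : ℕ} (hp : p.Prime) {i : J × Ty} (h : p ∣ s i) :
    p ∈ PS z y ∧ (p : ℤ) ∣ D.F a b i.1 ∧ ¬ (p : ℤ) ^ 2 ∣ D.F a b i.1 ∧
      D.ty i.1 p = some i.2 := by
  rw [← g.hs] at h
  obtain ⟨h1, h2, h3⟩ := (dvd_S1 hp).1 h
  have hz := (mem_PS.1 h1).1.1
  have h4 := (prv_dvd g.ne i hp hz).1 h2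
  unfold HFam.pr at h3
  rw [prv_pow g.ne i hp hz two_ne_zero] at h3
  exact ⟨h1, h4.1, fun h5 => h3 ⟨h5, h4.2⟩, h4.2⟩

lemma GG.fv (g : GG D z y s v u a b) {p : ℕ} (hp : p.Prime) {i : J × Ty} (h : p ∣ v i) :
    p ∈ PS z y ∧ (p : ℤ) ^ 2 ∣ D.F a b i.1 ∧ D.ty i.1 p = some i.2 := by
  rw [← g.hv] at h
  obtain ⟨h1, h3⟩ := (dvd_S2 hp).1 h
  have hz := (mem_PS.1 h1).1.1
  unfold HFam.pr at h3
  rw [prv_pow g.ne i hp hz two_ne_zero] at h3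
  exact ⟨h1, h3.1, h3.2⟩

lemma GG.fu (g : GG D z y s v u a b) (hzy : z < y) (hu : u ∈ Tup (J × Ty) y Y) {p : ℕ}
    (hp : p.Prime) {i : J × Ty} (h : p ∣ u i) :
    y < p ∧ (p : ℤ) ∣ D.F a b i.1 ∧ D.ty i.1 p = some i.2 := by
  have h1 := (dv_prime ((Pool.Agent.W372.RK2.mem_Tup'.1 hu).1 i) hp h).1
  have h2 : (p : ℤ) ∣ D.pr z a b i := (Int.natCast_dvd_natCast.2 h).trans (g.hu i)
  have h4 := (prv_dvd g.ne i hp (hzy.trans h1)).1 h2
  exact ⟨h1, h4⟩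

lemma GG.fm (g : GG D z y s v u a b) (hzy : z < y) (hu : u ∈ Tup (J × Ty) y Y) {p : ℕ}
    (hp : p.Prime) {i : J × Ty} (h : p ∣ s i * v i ^ 2 * u i) :
    z < p ∧ (p : ℤ) ∣ D.F a b i.1 ∧ D.ty i.1 p = some i.2 := by
  rcases hp.dvd_mul.1 h with h | h
  · rcases hp.dvd_mul.1 h with h | h
    · have h' := g.fs hp h
      exact ⟨(mem_PS.1 h'.1).1.1, h'.2.1, h'.2.2.2⟩
    · have h' := g.fv hp (hp.dvd_of_dvd_pow h)
      exact ⟨(mem_PS.1 h'.1).1.1, (dvd_pow_self (p : ℤ) two_ne_zero).trans h'.2.1, h'.2.2⟩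
  · have h' := g.fu hzy hu hp h
    exact ⟨hzy.trans h'.1, h'.2⟩

lemma GG.un (g : GG D z y s v u a b) (hD : D.OK) (hz : D.z1 ≤ z) (hzy : z < y)
    (hu : u ∈ Tup (J × Ty) y Y) {p : ℕ}
    (hp : p.Prime) {i l : J × Ty} (h : p ∣ s i * v i ^ 2 * u i) (h' : p ∣ s l * v l ^ 2 * u l) :
    i = l := by
  obtain ⟨h1, h2, h3⟩ := g.fm hzy hu hp h
  obtain ⟨_, h5, h6⟩ := g.fm hzy hu hp h'
  have h7 := hD.un p hp (by omega) a b (cop_nd g.cop hp) _ _ h2 h5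
  refine Prod.ext h7 ?_
  have h8 : some i.2 = some l.2 := by rw [← h3, ← h6, h7]
  exact Option.some.inj h8

/-- two counted numbers with the same residues are congruent -/
lemma congG (hD : D.OK) (hz : D.z1 ≤ z) (hzy : z < y) (hs : s ∈ Tup (J × Ty) z y)
    (hv : v ∈ Tup (J × Ty) z y) (hu : u ∈ Tup (J × Ty) y Y)
    (g : GG D z y s v u a (w + D.κ * a)) (g' : GG D z y s v u a' (w + D.κ * a'))
    (h1 : ∀ i, ∀ p : ℕ, p.Prime → p ∣ s i → (p : ℤ) ∣ a - a')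
    (h2 : ∀ i, ∀ p : ℕ, p.Prime → p ∣ v i → (p : ℤ) ∣ a - a')
    (h3 : ∀ i, ∀ p : ℕ, p.Prime → p ∣ u i → (p : ℤ) ∣ a - a') :
    ((∏ i, s i * v i ^ 2 * u i : ℕ) : ℤ) ∣ a - a' := by
  have hs' := (Pool.Agent.W372.RK2.mem_Tup'.1 hs).1
  have hv' := (Pool.Agent.W372.RK2.mem_Tup'.1 hv).1
  have hu' := (Pool.Agent.W372.RK2.mem_Tup'.1 hu).1
  rw [Nat.cast_prod]
  apply Finset.prod_dvd_of_coprime
  · intro i _ l _ hil
    rw [Function.onFun, Nat.isCoprime_iff_coprime]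
    apply Nat.coprime_of_dvd
    intro p hp hpi hpl
    exact hil (g.un hD hz hzy hu hp hpi hpl)
  intro i _
  have e1 : ((s i : ℕ) : ℤ) ∣ a - a' := by
    have h := sq_pow_dvd (dv_squarefree (hs' i)) 1 (a - a')
      (fun p hp hpd => by
        rw [pow_one]
        exact h1 i p hp hpd)
    rwa [pow_one] at h
  have e2 : ((v i ^ 2 : ℕ) : ℤ) ∣ a - a' := by
    have h := sq_pow_dvd (dv_squarefree (hv' i)) 2 (a - a')
      (fun p hp hpd => by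
        have f := g.fv hp hpd
        have f' := g'.fv hp hpd
        have hzp := (mem_PS.1 f.1).1.1
        exact hD.hens p hp (by omega) w a a' (hD.ndw p hp (by omega) w a g.cop i.1
          ((dvd_pow_self (p : ℤ) two_ne_zero).trans f.2.1)) i.1 (h2 i p hp hpd) f.2.1 f'.2.1)
    exact_mod_cast h
  have e3 : ((u i : ℕ) : ℤ) ∣ a - a' := by
    have h := sq_pow_dvd (dv_squarefree (hu' i)) 1 (a - a')
      (fun p hp hpd => by
        rw [pow_one]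
        exact h3 i p hp hpd)
    rwa [pow_one] at h
  have hcop1 : IsCoprime ((s i : ℕ) : ℤ) ((v i ^ 2 : ℕ) : ℤ) := by
    rw [Nat.isCoprime_iff_coprime]
    apply Nat.coprime_of_dvd
    intro p hp hps hpv
    exact (g.fs hp hps).2.2.1 (g.fv hp (hp.dvd_of_dvd_pow hpv)).2.1
  have hcop2 : IsCoprime ((s i * v i ^ 2 : ℕ) : ℤ) ((u i : ℕ) : ℤ) := by
    rw [Nat.isCoprime_iff_coprime]
    apply Nat.coprime_of_dvd
    intro p hp hps hpu
    have h8 : y < p := (g.fu hzy hu hp hpu).1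
    have h9 : p ≤ y := by
      rcases hp.dvd_mul.1 hps with h | h
      · exact (dv_prime (hs' i) hp h).2
      · exact (dv_prime (hv' i) hp (hp.dvd_of_dvd_pow h)).2
    omega
  rw [Nat.cast_mul]
  refine hcop2.mul_dvd ?_ e3
  rw [Nat.cast_mul]
  exact hcop1.mul_dvd e1 e2

end

end Pool.Agent.R421.HF
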