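import Pool.Agent.R421.HF.Fam

/-!
# Project HF: the count on a line
-/

set_option autoImplicit false
set_option linter.all false

namespace Pool.Agent.R421.HF

open Finset Pool.Agent.W262.RK Pool.Agent.W307.RT Pool.Agent.TH841.PT
open Pool.Agent.TH841.PT.CNTPf (ra ra_congr exp_le_div mem_flt)
open Pool.Agent.TH841.PT.SVPf (svp)
open Pool.Agent.Y515.Z8 (card_fib)

variable {J : Type} [Fintype J] [DecidableEq J]

/-- the roots modulo `p` on the line -/
def RtG (D : HFam J) (w N : ℤ) (j : J) (p : ℕ) : Finset ℕ :=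
  (range p).filter (fun n : ℕ => (p : ℤ) ∣ D.F ((n : ℤ) - N) (w + D.κ * ((n : ℤ) - N)) j)

/-- the residue classes -/
lemma ra_memG {D : HFam J} (hD : D.OK) {w a : ℤ} {j : J} {p : ℕ} (hp : 0 < p)
    (h : (p : ℤ) ∣ D.F a (w + D.κ * a) j) : ra a p ∈ RtG D w 0 j p := by
  have hp0 : (0 : ℤ) < p := by exact_mod_cast hp
  have h0 := Int.emod_nonneg a hp0.ne'
  have h1 := Int.emod_lt_of_pos a hp0
  unfold RtG ra
  rw [mem_filter, mem_range]
  refine ⟨by omega, ?_⟩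
  rw [Int.toNat_of_nonneg h0, sub_zero]
  refine hD.cong p w a (a % p) j ?_ h
  exact ⟨a / p, by have := Int.emod_add_mul_ediv a p; linarith⟩

/-- the sum over the primes of the modulus -/
lemma exp_mG {D : HFam J} (hD : D.OK) {z y : ℕ} (hz : D.c < z) (d : J × Ty → ℕ)
    (hd : ∀ i, d i ∈ (PP z y).divisors) :
    Real.exp (∑ p ∈ PS z y, (∑ i, if p ∣ d i then (1 : ℝ) else 0) * ((D.nt p : ℝ) / p)) ≤
      ∏ i, ∏ p ∈ (d i).primeFactors, (p : ℝ) / ((p : ℝ) - D.c) := by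
  have e : ∑ p ∈ PS z y, (∑ i, if p ∣ d i then (1 : ℝ) else 0) * ((D.nt p : ℝ) / p) =
      ∑ i, ∑ p ∈ (d i).primeFactors, (D.nt p : ℝ) / p := by
    simp_rw [sum_mul]
    rw [sum_comm]
    refine sum_congr rfl fun i _ => ?_
    have h1 : (d i).primeFactors = (PS z y).filter (fun p => p ∣ d i) := by
      ext p
      rw [mem_filter, Nat.mem_primeFactors]
      constructor
      · rintro ⟨hp, hd', _⟩
        exact ⟨mem_PS.2 ⟨dv_prime (hd i) hp hd', hp⟩, hd'⟩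
      · rintro ⟨hp, hd'⟩
        exact ⟨(mem_PS.1 hp).2, hd', dv_ne_zero (hd i)⟩
    rw [h1, sum_filter]
    refine sum_congr rfl fun p _ => ?_
    split_ifs <;> simp
  rw [e, Real.exp_sum]
  refine prod_le_prod (fun _ _ => (Real.exp_pos _).le) fun i _ => ?_
  rw [Real.exp_sum]
  refine prod_le_prod (fun _ _ => (Real.exp_pos _).le) fun p hp => ?_
  have hpp := Nat.prime_of_mem_primeFactors hp
  have hzp := (dv_prime (hd i) hpp (Nat.dvd_of_mem_primeFactors hp)).1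
  exact exp_le_div (a := (D.nt p : ℝ)) (c := D.c) (p := p) (Nat.cast_nonneg _)
    (by exact_mod_cast hD.nrs p) (by omega)

/-- the sum over the primes that divide `w` -/
lemma exp_wG {D : HFam J} (hD : D.OK) {z y : ℕ} (hz : D.c < z) {w : ℤ} (hw : w ≠ 0) :
    Real.exp (∑ p ∈ PS z y, (if (p : ℤ) ∣ w then (1 : ℝ) else 0) * ((D.nt p : ℝ) / p)) ≤
      ∏ p ∈ w.natAbs.primeFactors.filter (fun p => z < p), (p : ℝ) / ((p : ℝ) - D.c) := by
  have e : ∑ p ∈ PS z y, (if (p : ℤ) ∣ w then (1 : ℝ) else 0) * ((D.nt p : ℝ) / p) ≤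
      ∑ p ∈ w.natAbs.primeFactors.filter (fun p => z < p), (D.nt p : ℝ) / p := by
    have e1 : ∑ p ∈ PS z y, (if (p : ℤ) ∣ w then (1 : ℝ) else 0) * ((D.nt p : ℝ) / p) =
        ∑ p ∈ (PS z y).filter (fun p : ℕ => (p : ℤ) ∣ w), (D.nt p : ℝ) / p := by
      rw [sum_filter]
      refine sum_congr rfl fun p _ => ?_
      split_ifs <;> simp
    rw [e1]
    refine sum_le_sum_of_subset_of_nonneg ?_ fun p _ _ => by positivity
    intro p hp
    rw [mem_filter, mem_PS] at hp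
    rw [mem_filter, Nat.mem_primeFactors]
    exact ⟨⟨hp.1.2, Int.natCast_dvd.1 hp.2, Int.natAbs_ne_zero.2 hw⟩, hp.1.1.1⟩
  refine (Real.exp_le_exp.2 e).trans ?_
  rw [Real.exp_sum]
  refine prod_le_prod (fun _ _ => (Real.exp_pos _).le) fun p hp => ?_
  have hzp := (mem_filter.1 hp).2
  exact exp_le_div (a := (D.nt p : ℝ)) (c := D.c) (p := p) (Nat.cast_nonneg _)
    (by exact_mod_cast hD.nrs p) (by omega)

/-- the weights -/
lemma gp_eqG {D : HFam J} {z y d : ℕ} (i : J × Ty) (hd : d ∈ (PP z y).divisors)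
    (hty : ∀ p : ℕ, p.Prime → p ∣ d → D.ty i.1 p = some i.2) :
    (∏ p ∈ d.primeFactors, (D.nr i.1 p : ℝ)) *
      ∏ p ∈ d.primeFactors, (p : ℝ) / ((p : ℝ) - D.c) = (d : ℝ) * gp (D.g i) D.c d := by
  unfold gp
  have h1 : (d : ℝ) = ∏ p ∈ d.primeFactors, (p : ℝ) := by
    rw [← Nat.cast_prod, Nat.prod_primeFactors_of_squarefree (dv_squarefree hd)]
  conv_rhs => rw [h1]
  rw [← prod_mul_distrib, ← prod_mul_distrib]
  refine prod_congr rfl fun p hp => ?_
  have hpp := Nat.prime_of_mem_primeFactors hp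
  have hpd := Nat.dvd_of_mem_primeFactors hp
  unfold HFam.g
  rw [if_pos (hty p hpp hpd)]
  ring

lemma gp_nonnegG {D : HFam J} {z y d : ℕ} (hz : D.c < z) (i : J × Ty)
    (hd : d ∈ (PP z y).divisors) : 0 ≤ gp (D.g i) D.c d := by
  unfold gp
  refine prod_nonneg fun p hp => div_nonneg (D.g_nonneg _ _) ?_
  have hpp := Nat.prime_of_mem_primeFactors hp
  have hzp := (dv_prime hd hpp (Nat.dvd_of_mem_primeFactors hp)).1
  have : (D.c : ℝ) < p := by exact_mod_cast (by omega : D.c < p)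
  linarith

/-- the sieving condition -/
def ZG (D : HFam J) (w N : ℤ) (p n : ℕ) : Prop :=
  ¬ (p : ℤ) ∣ w ∧ ∃ j, D.ty j p ≠ none ∧
    (p : ℤ) ∣ D.F ((n : ℤ) - N) (w + D.κ * ((n : ℤ) - N)) j

lemma ZG_per {D : HFam J} (hD : D.OK) (w N : ℤ) (p n : ℕ) :
    ZG D w N p n ↔ ZG D w N p (n % p) := by
  have h1 : (p : ℤ) ∣ ((n : ℤ) - N) - (((n % p : ℕ) : ℤ) - N) := by
    push_cast
    exact ⟨(n : ℤ) / p, by have := Int.emod_add_mul_ediv (n : ℤ) p; linarith⟩
  have h2 : (p : ℤ) ∣ (((n % p : ℕ) : ℤ) - N) - ((n : ℤ) - N) := by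
    rw [← neg_sub]
    exact h1.neg_right
  unfold ZG
  exact and_congr Iff.rfl (exists_congr fun j => and_congr Iff.rfl
    ⟨hD.cong p w _ _ j h1, hD.cong p w _ _ j h2⟩)

/-- the number of the classes -/
def nuG (D : HFam J) (w : ℤ) (p : ℕ) : ℕ := if (p : ℤ) ∣ w then 0 else D.nt p

open Classical in
lemma ZG_card {D : HFam J} (hD : D.OK) {w N : ℤ} {p : ℕ}
    (hp : p.Prime) (hz : D.z1 < p) :
    ((range p).filter (fun n => ZG D w N p n)).card = nuG D w p ∧ nuG D w p ≤ D.c := by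
  by_cases hpw : (p : ℤ) ∣ w
  · have e : nuG D w p = 0 := if_pos hpw
    rw [e]
    refine ⟨?_, by omega⟩
    rw [card_eq_zero, filter_eq_empty_iff]
    exact fun n _ hn => hn.1 hpw
  · have e : nuG D w p = D.nt p := if_neg hpw
    rw [e]
    refine ⟨?_, hD.nrs p⟩
    have h1 : (range p).filter (fun n => ZG D w N p n) =
        (univ.filter (fun j => D.ty j p ≠ none)).biUnion (fun j => RtG D w N j p) := by
      ext n
      rw [mem_filter, mem_biUnion]
      constructor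
      · rintro ⟨h2, h5⟩
        obtain ⟨-, j, h3, h4⟩ := h5
        exact ⟨j, mem_filter.2 ⟨mem_univ _, h3⟩, mem_filter.2 ⟨h2, h4⟩⟩
      · rintro ⟨j, h3, h2⟩
        obtain ⟨h5, h4⟩ := mem_filter.1 h2
        exact ⟨h5, hpw, j, (mem_filter.1 h3).2, h4⟩
    rw [h1, card_biUnion]
    · have h2 : ∑ j ∈ univ.filter (fun j => D.ty j p ≠ none), (RtG D w N j p).card =
          ∑ j ∈ univ.filter (fun j => D.ty j p ≠ none), D.nr j p :=
        sum_congr rfl fun j hj => hD.card p hp hz w N hpw j (mem_filter.1 hj).2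
      rw [h2]
      unfold HFam.nt
      rw [sum_filter]
      refine sum_congr rfl fun j _ => ?_
      split_ifs with h3
      · rfl
      · rw [not_not] at h3
        exact (hD.nr0 j p h3).symm
    · intro j _ l _ hjl
      rw [Function.onFun, disjoint_left]
      intro n h2 h3
      unfold RtG at h2 h3
      rw [mem_filter] at h2 h3
      apply hjl
      refine hD.un p hp hz _ _ ?_ j l h2.2 h3.2
      rintro ⟨h4, h5⟩
      exact hpw ((dvd_add_left (h4.mul_left _)).1 h5)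

attribute [local irreducible] ZG

/-- the conditions for two elements of a fibre -/
lemma fib_condG {D : HFam J} (hD : D.OK) {z y Y : ℕ} {s v u : J × Ty → ℕ} {w N : ℤ}
    (hz : D.z1 ≤ z) (hzy : z < y)
    (hs : s ∈ Tup (J × Ty) z y) (hv : v ∈ Tup (J × Ty) z y) (hu : u ∈ Tup (J × Ty) y Y) {t r : ℕ}
    (g : GG D z y s v u ((t : ℤ) - N) (w + D.κ * ((t : ℤ) - N)))
    (g' : GG D z y s v u ((r : ℤ) - N) (w + D.κ * ((r : ℤ) - N)))
    (h1 : ∀ i, ∀ p : ℕ, p.Prime → p ∣ s i → ra ((t : ℤ) - N) p = ra ((r : ℤ) - N) p)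
    (h2 : ∀ i, ∀ p : ℕ, p.Prime → p ∣ v i → ra ((t : ℤ) - N) p = ra ((r : ℤ) - N) p)
    (h3 : ∀ i, ∀ p : ℕ, p.Prime → p ∣ u i → ra ((t : ℤ) - N) p = ra ((r : ℤ) - N) p) :
    t ≡ r [MOD ∏ i, (s i * v i ^ 2 * u i)] ∧
      ∀ p ∈ PS z y, ¬ p ∣ ∏ i, (s i * v i ^ 2 * u i) → ¬ ZG D w N p t := by
  constructor
  · have h1 := congG hD hz hzy hs hv hu g g'
      (fun i p hp hpd => ra_congr hp.pos (h1 i p hp hpd))
      (fun i p hp hpd => ra_congr hp.pos (h2 i p hp hpd))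
      (fun i p hp hpd => ra_congr hp.pos (h3 i p hp hpd))
    have e : ((t : ℤ) - N) - ((r : ℤ) - N) = (t : ℤ) - r := by ring
    rw [e] at h1
    exact ((Nat.modEq_iff_dvd.2 h1)).symm
  · intro p hpP hpm hpf
    have hp := (mem_PS.1 hpP).2
    have hzp := (mem_PS.1 hpP).1.1
    unfold ZG at hpf
    obtain ⟨j, hty, hj⟩ := hpf.2
    obtain ⟨θ, hθ⟩ := Option.ne_none_iff_exists'.1 hty
    apply hpm
    refine Dvd.dvd.trans ?_ (dvd_prod_of_mem _ (mem_univ (j, θ)))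
    have k1 : (p : ℤ) ∣ D.pr z ((t : ℤ) - N) (w + D.κ * ((t : ℤ) - N)) (j, θ) :=
      (prv_dvd g.ne (j, θ) hp hzp).2 ⟨hj, hθ⟩
    by_cases h2 : (p : ℤ) ^ 2 ∣ D.pr z ((t : ℤ) - N) (w + D.κ * ((t : ℤ) - N)) (j, θ)
    · have h3 : p ∣ v (j, θ) := by
        rw [← g.hv]
        exact (Pool.Agent.W29.RT.dvd_S2 hp).2 ⟨hpP, h2⟩
      exact ((h3.pow two_ne_zero).mul_left _).mul_right _
    · have h3 : p ∣ s (j, θ) := by
        rw [← g.hs]
        exact (Pool.Agent.W29.RT.dvd_S1 hp).2 ⟨hpP, k1, h2⟩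
      exact (h3.mul_right _).mul_right _

/-- the residue classes -/
noncomputable def TgG (D : HFam J) (w : ℤ) (s : J × Ty → ℕ) :
    Finset ((i : J × Ty) → (s i).primeFactors → ℕ) :=
  Fintype.piFinset (fun i : J × Ty => Fintype.piFinset
      (fun p : (s i).primeFactors => RtG D w 0 i.1 p))

/-- the residues -/
noncomputable def PhG (s : J × Ty → ℕ) (a : ℤ) : (i : J × Ty) → (s i).primeFactors → ℕ :=
  fun _ p => ra a p

lemma card_TgG (D : HFam J) (w : ℤ) (s : J × Ty → ℕ) :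
    (TgG D w s).card = ∏ i, ∏ p ∈ (s i).primeFactors, (RtG D w 0 i.1 p).card := by
  unfold TgG
  rw [Fintype.card_piFinset]
  refine prod_congr rfl fun i _ => ?_
  rw [Fintype.card_piFinset]
  exact prod_coe_sort (s i).primeFactors (fun p => (RtG D w 0 i.1 p).card)

lemma PhG_mem {D : HFam J} (hD : D.OK) {w a : ℤ} {s : J × Ty → ℕ}
    (h : ∀ i, ∀ p : ℕ, p.Prime → p ∣ s i → (p : ℤ) ∣ D.F a (w + D.κ * a) i.1) :
    PhG s a ∈ TgG D w s := by
  unfold TgG PhG
  rw [Fintype.mem_piFinset]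
  intro i
  rw [Fintype.mem_piFinset]
  intro p
  have hp := Nat.prime_of_mem_primeFactors p.2
  exact ra_memG hD hp.pos (h i p hp (Nat.dvd_of_mem_primeFactors p.2))

lemma PhG_eq {a a' : ℤ} {s : J × Ty → ℕ} (hs : ∀ i, s i ≠ 0) (h : PhG s a = PhG s a')
    (i : J × Ty) {p : ℕ} (hp : p.Prime) (hpd : p ∣ s i) : ra a p = ra a' p :=
  congrFun (congrFun h i) ⟨p, Nat.mem_primeFactors.2 ⟨hp, hpd, hs i⟩⟩

/-- the exponential factor -/
lemma W_leG {D : HFam J} (hD : D.OK) {z y : ℕ} (hz : D.c < z) {w : ℤ} (hw : w ≠ 0)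
    {s v : J × Ty → ℕ} {m : ℕ}
    (hs : ∀ i, s i ∈ (PP z y).divisors) (hv : ∀ i, v i ∈ (PP z y).divisors)
    (hm : ∀ p ∈ PS z y, p ∣ m → ∃ i, p ∣ s i ∨ p ∣ v i) :
    Real.exp (-∑ p ∈ (PS z y).filter (fun p => ¬ p ∣ m), (nuG D w p : ℝ) / p) ≤
      Real.exp (-∑ p ∈ PS z y, (D.nt p : ℝ) / p) *
      ((∏ i, ∏ p ∈ (s i).primeFactors, (p : ℝ) / ((p : ℝ) - D.c)) *
      (∏ i, ∏ p ∈ (v i).primeFactors, (p : ℝ) / ((p : ℝ) - D.c)) *
      ∏ p ∈ w.natAbs.primeFactors.filter (fun p => z < p), (p : ℝ) / ((p : ℝ) - D.c)) := by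
  have h1 := exp_mG hD hz s hs
  have h2 := exp_mG hD hz v hv
  have h3 := exp_wG hD (y := y) hz hw
  have h4 := mul_le_mul (mul_le_mul h1 h2 (Real.exp_pos _).le
    ((Real.exp_pos _).le.trans h1)) h3 (Real.exp_pos _).le
    (mul_nonneg ((Real.exp_pos _).le.trans h1) ((Real.exp_pos _).le.trans h2))
  rw [← Real.exp_add, ← Real.exp_add] at h4
  refine le_trans ?_ (mul_le_mul_of_nonneg_left h4 (Real.exp_pos _).le)
  rw [← Real.exp_add]
  apply Real.exp_le_exp.2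
  rw [neg_le_iff_add_nonneg, ← sub_nonneg]
  have key : ∑ p ∈ PS z y, (D.nt p : ℝ) / p ≤
      ∑ p ∈ (PS z y).filter (fun p => ¬ p ∣ m), (nuG D w p : ℝ) / p +
      (∑ p ∈ PS z y, (∑ i, if p ∣ s i then (1 : ℝ) else 0) * ((D.nt p : ℝ) / p) +
      ∑ p ∈ PS z y, (∑ i, if p ∣ v i then (1 : ℝ) else 0) * ((D.nt p : ℝ) / p) +
      ∑ p ∈ PS z y, (if (p : ℤ) ∣ w then (1 : ℝ) else 0) * ((D.nt p : ℝ) / p)) := by
    rw [sum_filter, ← sum_add_distrib, ← sum_add_distrib, ← sum_add_distrib]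
    refine sum_le_sum fun p hp => ?_
    have hn : 0 ≤ (D.nt p : ℝ) / p := by positivity
    have i1 : 0 ≤ ∑ i, (if p ∣ s i then (1 : ℝ) else 0) := sum_nonneg fun i _ => by
      split_ifs <;> norm_num
    have i2 : 0 ≤ ∑ i, (if p ∣ v i then (1 : ℝ) else 0) := sum_nonneg fun i _ => by
      split_ifs <;> norm_num
    have i3 : 0 ≤ (if (p : ℤ) ∣ w then (1 : ℝ) else 0) := by split_ifs <;> norm_num
    have j1 := mul_nonneg i1 hn
    have j2 := mul_nonneg i2 hn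
    have j3 := mul_nonneg i3 hn
    by_cases hpm : p ∣ m
    · have k0 : 0 ≤ (if ¬ p ∣ m then (nuG D w p : ℝ) / p else 0) := by
        split_ifs <;> positivity
      obtain ⟨i, hi⟩ := hm p hp hpm
      rcases hi with hi | hi
      · have : 1 ≤ ∑ i, (if p ∣ s i then (1 : ℝ) else 0) := by
          refine le_trans (by rw [if_pos hi]) (single_le_sum
            (f := fun i => if p ∣ s i then (1 : ℝ) else 0) (fun i _ => by
            split_ifs <;> norm_num) (mem_univ i))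
        nlinarith
      · have : 1 ≤ ∑ i, (if p ∣ v i then (1 : ℝ) else 0) := by
          refine le_trans (by rw [if_pos hi]) (single_le_sum
            (f := fun i => if p ∣ v i then (1 : ℝ) else 0) (fun i _ => by
            split_ifs <;> norm_num) (mem_univ i))
        nlinarith
    · rw [if_pos hpm]
      by_cases hpw : (p : ℤ) ∣ w
      · have k0 : 0 ≤ (nuG D w p : ℝ) / p := by positivity
        rw [if_pos hpw] at j3 ⊢
        linarith
      · have : nuG D w p = D.nt p := if_neg hpw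
        rw [this]
        linarith
  linarith

end Pool.Agent.R421.HF
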