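import Pool.Agent.R421.HF.Line

/-!
# Project HF: the count on a line, the bound
-/

set_option autoImplicit false
set_option linter.all false

namespace Pool.Agent.R421.HF

open Finset Pool.Agent.W262.RK Pool.Agent.W307.RT Pool.Agent.TH841.PT
open Pool.Agent.TH841.PT.CNTPf (ra ra_congr exp_le_div mem_flt)
open Pool.Agent.TH841.PT.SVPf (svp)
open Pool.Agent.Y515.Z8 (card_fib)

variable {J : Type} [Fintype J] [DecidableEq J]

attribute [local irreducible] ZG TgG PhG ra RtG gp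

/-- the modulus -/
def moG (s v u : J × Ty → ℕ) : ℕ := ∏ i, (s i * v i ^ 2 * u i)

lemma moG_pos {z y Y : ℕ} {s v u : J × Ty → ℕ} (hs : ∀ i, s i ∈ (PP z y).divisors)
    (hv : ∀ i, v i ∈ (PP z y).divisors) (hu : ∀ i, u i ∈ (PP y Y).divisors) : 1 ≤ moG s v u := by
  refine Nat.succ_le_of_lt (prod_pos fun j _ => ?_)
  have h1 := dv_pos (hs j)
  have h2 := dv_pos (hv j)
  have h3 := dv_pos (hu j)
  positivity

lemma moG_le {z y Y X : ℕ} {s v u : J × Ty → ℕ} (hs : ∀ i, s i ∈ (PP z y).divisors)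
    (hu : ∀ i, u i ∈ (PP y Y).divisors)
    (h : (∏ i, s i * v i * u i) ^ 8 ≤ X) : moG s v u ^ 4 ≤ X := by
  refine le_trans ?_ h
  have h1 : moG s v u ≤ (∏ j, s j * v j * u j) ^ 2 := by
    unfold moG
    rw [← prod_pow]
    apply prod_le_prod'
    intro j _
    have h1 := dv_pos (hs j)
    have h3 := dv_pos (hu j)
    calc s j * v j ^ 2 * u j ≤ (s j * s j) * v j ^ 2 * (u j * u j) := by
          apply Nat.mul_le_mul
          · apply Nat.mul_le_mul_right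
            nlinarith
          · nlinarith
      _ = (s j * v j * u j) ^ 2 := by ring
  calc moG s v u ^ 4 ≤ ((∏ j, s j * v j * u j) ^ 2) ^ 4 := Nat.pow_le_pow_left h1 4
    _ = (∏ j, s j * v j * u j) ^ 8 := by rw [← pow_mul]

lemma moG_dvd {z y Y : ℕ} {s v u : J × Ty → ℕ} (hu : ∀ i, u i ∈ (PP y Y).divisors) {p : ℕ}
    (hp : p ∈ PS z y) (h : p ∣ moG s v u) : ∃ i, p ∣ s i ∨ p ∣ v i := by
  have hpp := (mem_PS.1 hp).2
  obtain ⟨i, _, hi⟩ := (hpp.prime.dvd_finsetProd_iff _).1 h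
  refine ⟨i, ?_⟩
  rcases hpp.dvd_mul.1 hi with hi | hi
  · rcases hpp.dvd_mul.1 hi with hi | hi
    · exact Or.inl hi
    · exact Or.inr (hpp.dvd_of_dvd_pow hi)
  · have h1 := (dv_prime (hu i) hpp hi).1
    have h2 := (mem_PS.1 hp).1.2
    omega

/-- the final identity -/
lemma fin_algG {s v u : J × Ty → ℕ} (hs : ∀ i, s i ≠ 0) (hv : ∀ i, v i ≠ 0)
    (hu : ∀ i, u i ≠ 0)
    {a1 b1 a2 b2 q gs gv : J × Ty → ℝ} (h1 : ∀ i, a1 i * b1 i = s i * gs i)
    (h2 : ∀ i, a2 i * b2 i = v i * gv i) (C X W L : ℝ) :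
    ((∏ i, a1 i) * ((∏ i, a2 i) * ∏ i, q i)) * (C * (X / (moG s v u : ℕ)) *
      (L * ((∏ i, b1 i) * (∏ i, b2 i) * W))) =
      C * X * (∏ i, gs i) * (∏ i, gv i / v i) * (∏ i, q i / (u i : ℝ)) * L * W := by
  have e1 : (∏ i, a1 i) * (∏ i, b1 i) = (∏ i, (s i : ℝ)) * ∏ i, gs i := by
    rw [← prod_mul_distrib, ← prod_mul_distrib]
    exact prod_congr rfl fun i _ => h1 i
  have e2 : (∏ i, a2 i) * (∏ i, b2 i) = (∏ i, (v i : ℝ)) * ∏ i, gv i := by
    rw [← prod_mul_distrib, ← prod_mul_distrib]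
    exact prod_congr rfl fun i _ => h2 i
  have e3 : ((moG s v u : ℕ) : ℝ) = (∏ i, (s i : ℝ)) * (∏ i, (v i : ℝ)) ^ 2 * ∏ i, (u i : ℝ) := by
    unfold moG
    rw [Nat.cast_prod, ← prod_pow, ← prod_mul_distrib, ← prod_mul_distrib]
    exact prod_congr rfl fun i _ => by push_cast; ring
  have s0 : (∏ i, (s i : ℝ)) ≠ 0 := prod_ne_zero_iff.2 fun i _ => Nat.cast_ne_zero.2 (hs i)
  have v0 : (∏ i, (v i : ℝ)) ≠ 0 := prod_ne_zero_iff.2 fun i _ => Nat.cast_ne_zero.2 (hv i)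
  have u0 : (∏ i, (u i : ℝ)) ≠ 0 := prod_ne_zero_iff.2 fun i _ => Nat.cast_ne_zero.2 (hu i)
  rw [prod_div_distrib, prod_div_distrib, e3]
  generalize (∏ i, (s i : ℝ)) = S at *
  generalize (∏ i, (v i : ℝ)) = V at *
  generalize (∏ i, (u i : ℝ)) = U at *
  generalize (∏ i, a1 i) = A1 at *
  generalize (∏ i, a2 i) = A2 at *
  generalize (∏ i, b1 i) = B1 at *
  generalize (∏ i, b2 i) = B2 at *
  generalize (∏ i, gs i) = GS at *
  generalize (∏ i, gv i) = GV at *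
  generalize (∏ i, q i) = Q at *
  have e4 : (A1 * (A2 * Q)) * (C * (X / (S * V ^ 2 * U)) * (L * (B1 * B2 * W))) =
      (A1 * B1) * (A2 * B2) * (Q * (C * (X / (S * V ^ 2 * U)) * (L * W))) := by ring
  rw [e4, e1, e2]
  have e5 : X / (S * V ^ 2 * U) = X / S / V / V / U := by
    field_simp
  rw [e5]
  field_simp

/-- the normalisation -/
noncomputable def HFam.E (D : HFam J) (z y : ℕ) : ℝ :=
  Real.exp (-∑ p ∈ PS z y, (D.nt p : ℝ) / p)

open Classical in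
/-- FIX -/
theorem fix_leG (D : HFam J) (hD : D.OK) (z : ℕ) (hz : D.z1 ≤ z) (hzc : 2 * D.c + 2 ≤ z) :
    ∃ (C : ℝ) (K y0 : ℕ), 0 ≤ C ∧ 1 ≤ K ∧
    ∀ X y Y : ℕ, y0 ≤ y → z < y → y ^ K ≤ X →
    ∀ s ∈ Tup (J × Ty) z y, ∀ v ∈ Tup (J × Ty) z y, ∀ u ∈ Tup (J × Ty) y Y,
    (∏ i, s i * v i * u i) ^ 8 ≤ X →
    ∀ w N : ℤ, w ≠ 0 →
    (((Icc 1 X).filter (fun t : ℕ =>
      GG D z y s v u ((t : ℤ) - N) (w + D.κ * ((t : ℤ) - N)))).card : ℝ) ≤
      C * X * (∏ i, gp (D.g i) D.c (s i)) * (∏ i, gp (D.g i) D.c (v i) / v i) *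
        (∏ i, (D.c : ℝ) ^ (u i).primeFactors.card / (u i : ℝ)) * D.E z y *
        ∏ p ∈ w.natAbs.primeFactors.filter (fun p => z < p), (p : ℝ) / ((p : ℝ) - D.c) := by
  obtain ⟨C, K, y0, hC, hK, hSV⟩ := svp D.c z hzc
  refine ⟨C, K, y0, hC, hK, ?_⟩
  intro X y Y hy0 hzy hX s hs v hv u hu hsvu w N hw
  have hs' := (Pool.Agent.W372.RK2.mem_Tup'.1 hs).1
  have hv' := (Pool.Agent.W372.RK2.mem_Tup'.1 hv).1
  have hu' := (Pool.Agent.W372.RK2.mem_Tup'.1 hu).1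
  have hcz : D.c < z := by omega
  have hE0 : 0 < D.E z y := Real.exp_pos _
  set gW : ℝ := ∏ p ∈ w.natAbs.primeFactors.filter (fun p => z < p), (p : ℝ) / ((p : ℝ) - D.c)
    with hgW
  have hgW0 : 0 ≤ gW := prod_nonneg fun p hp => by
    have : (D.c : ℝ) < p := by exact_mod_cast (by have := (mem_filter.1 hp).2; omega : D.c < p)
    exact div_nonneg (Nat.cast_nonneg _) (by linarith)
  have hgs : ∀ i, 0 ≤ gp (D.g i) D.c (s i) := fun i => gp_nonnegG hcz i (hs' i)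
  have hgv : ∀ i, 0 ≤ gp (D.g i) D.c (v i) := fun i => gp_nonnegG hcz i (hv' i)
  set T := (Icc 1 X).filter (fun t : ℕ =>
      GG D z y s v u ((t : ℤ) - N) (w + D.κ * ((t : ℤ) - N))) with hT
  have hgood : ∀ t ∈ T, GG D z y s v u ((t : ℤ) - N) (w + D.κ * ((t : ℤ) - N)) := by
    intro t ht
    rw [hT, mem_filter] at ht
    exact ht.2
  rcases T.eq_empty_or_nonempty with hTe | ⟨t0, ht0⟩
  · rw [hTe, card_empty, Nat.cast_zero]
    have h1 : 0 ≤ ∏ i, gp (D.g i) D.c (s i) := prod_nonneg fun j _ => hgs j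
    have h2 : 0 ≤ ∏ i, gp (D.g i) D.c (v i) / v i :=
      prod_nonneg fun j _ => div_nonneg (hgv j) (Nat.cast_nonneg _)
    have h3 : 0 ≤ ∏ i, (D.c : ℝ) ^ (u i).primeFactors.card / (u i : ℝ) :=
      prod_nonneg fun j _ => div_nonneg (pow_nonneg (Nat.cast_nonneg _) _) (Nat.cast_nonneg _)
    exact mul_nonneg (mul_nonneg (mul_nonneg (mul_nonneg (mul_nonneg
      (mul_nonneg hC (Nat.cast_nonneg _)) h1) h2) h3) hE0.le) hgW0
  have g0 := hgood t0 ht0
  -- the sieve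
  have hSVm := hSV X y hy0 hzy hX (ZG D w N) (nuG D w) (fun p _ n => ZG_per hD w N p n)
    (fun p hp => ZG_card hD (mem_PS.1 hp).2 (by have := (mem_PS.1 hp).1.1; omega)) (moG s v u)
  set W : ℝ := Real.exp (-∑ p ∈ (PS z y).filter (fun p => ¬ p ∣ moG s v u),
    (nuG D w p : ℝ) / p) with hW
  set B : ℝ := C * (X / (moG s v u : ℕ)) * W with hB
  have hB0 : 0 ≤ B := mul_nonneg (mul_nonneg hC (div_nonneg (Nat.cast_nonneg _)
    (Nat.cast_nonneg _))) (Real.exp_pos _).le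
  have hcard : (T.card : ℝ) ≤ ((TgG D w s ×ˢ (TgG D w v ×ˢ TgG D w u)).card : ℝ) * B := by
    refine card_fib T (fun t => (PhG s ((t : ℤ) - N), (PhG v ((t : ℤ) - N),
      PhG u ((t : ℤ) - N)))) _ B ?_ hB0 ?_
    · intro t ht
      have g := hgood t ht
      rw [mem_product, mem_product]
      exact ⟨PhG_mem hD fun i p hp hpd => (g.fs hp hpd).2.1,
        PhG_mem hD fun i p hp hpd => (dvd_pow_self (p : ℤ) two_ne_zero).trans (g.fv hp hpd).2.1,
        PhG_mem hD fun i p hp hpd => (g.fu hzy hu hp hpd).2.1⟩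
    · intro r hr
      refine le_trans ?_ (hSVm r (moG_pos hs' hv' hu') (moG_le hs' hu' hsvu))
      rw [Nat.cast_le]
      apply card_le_card
      intro t ht
      rw [mem_filter] at ht
      have g := hgood t ht.1
      have g' := hgood r hr
      have htX : t ∈ Icc 1 X := (mem_filter.1 ht.1).1
      have q1 := congrArg Prod.fst ht.2
      have q2 := congrArg (fun x => x.2.1) ht.2
      have q3 := congrArg (fun x => x.2.2) ht.2
      exact mem_flt htX (fib_condG hD hz hzy hs hv hu g g'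
        (fun i p hp hpd => PhG_eq (fun i => dv_ne_zero (hs' i)) q1 i hp hpd)
        (fun i p hp hpd => PhG_eq (fun i => dv_ne_zero (hv' i)) q2 i hp hpd)
        (fun i p hp hpd => PhG_eq (fun i => dv_ne_zero (hu' i)) q3 i hp hpd))
  -- the number of the classes
  have hRt : ∀ (i : J × Ty) (p : ℕ), p.Prime → D.z1 < p →
      (p : ℤ) ∣ D.F ((t0 : ℤ) - N) (w + D.κ * ((t0 : ℤ) - N)) i.1 → D.ty i.1 p = some i.2 →
      (RtG D w 0 i.1 p).card = D.nr i.1 p := by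
    intro i p hp hzp hd hty
    have := hD.card p hp hzp w 0 (hD.ndw p hp hzp w _ g0.cop i.1 hd) i.1 (by rw [hty]; simp)
    unfold RtG
    exact this
  have hcs : ((TgG D w s).card : ℝ) = ∏ i, ∏ p ∈ (s i).primeFactors, (D.nr i.1 p : ℝ) := by
    rw [card_TgG]
    push_cast
    refine prod_congr rfl fun i _ => prod_congr rfl fun p hp => ?_
    have hpp := Nat.prime_of_mem_primeFactors hp
    have f := g0.fs hpp (Nat.dvd_of_mem_primeFactors hp)
    have hzp := (mem_PS.1 f.1).1.1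
    rw [hRt i p hpp (by omega) f.2.1 f.2.2.2]
  have hcv : ((TgG D w v).card : ℝ) = ∏ i, ∏ p ∈ (v i).primeFactors, (D.nr i.1 p : ℝ) := by
    rw [card_TgG]
    push_cast
    refine prod_congr rfl fun i _ => prod_congr rfl fun p hp => ?_
    have hpp := Nat.prime_of_mem_primeFactors hp
    have f := g0.fv hpp (Nat.dvd_of_mem_primeFactors hp)
    have hzp := (mem_PS.1 f.1).1.1
    rw [hRt i p hpp (by omega) ((dvd_pow_self (p : ℤ) two_ne_zero).trans f.2.1) f.2.2]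
  have hcu : ((TgG D w u).card : ℝ) ≤ ∏ i, (D.c : ℝ) ^ (u i).primeFactors.card := by
    rw [card_TgG]
    push_cast
    refine prod_le_prod (fun _ _ => prod_nonneg fun _ _ => Nat.cast_nonneg _) fun i _ => ?_
    rw [← prod_const]
    refine prod_le_prod (fun _ _ => Nat.cast_nonneg _) fun p hp => ?_
    have hpp := Nat.prime_of_mem_primeFactors hp
    have f := g0.fu hzy hu hpp (Nat.dvd_of_mem_primeFactors hp)
    rw [hRt i p hpp (by omega) f.2.1 f.2.2]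
    exact_mod_cast hD.nr_le i.1 p
  have hWle : W ≤ D.E z y *
      ((∏ i, ∏ p ∈ (s i).primeFactors, (p : ℝ) / ((p : ℝ) - D.c)) *
      (∏ i, ∏ p ∈ (v i).primeFactors, (p : ℝ) / ((p : ℝ) - D.c)) * gW) :=
    W_leG hD hcz hw hs' hv' (fun p hp hpm => moG_dvd hu' hp hpm)
  have hTgle : ((TgG D w s ×ˢ (TgG D w v ×ˢ TgG D w u)).card : ℝ) ≤
      (∏ i, ∏ p ∈ (s i).primeFactors, (D.nr i.1 p : ℝ)) *
      ((∏ i, ∏ p ∈ (v i).primeFactors, (D.nr i.1 p : ℝ)) *
        ∏ i, (D.c : ℝ) ^ (u i).primeFactors.card) := by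
    rw [card_product, card_product]
    push_cast
    rw [hcs, hcv]
    apply mul_le_mul_of_nonneg_left _ (prod_nonneg fun _ _ => prod_nonneg fun _ _ =>
      Nat.cast_nonneg _)
    exact mul_le_mul_of_nonneg_left hcu (prod_nonneg fun _ _ => prod_nonneg fun _ _ =>
      Nat.cast_nonneg _)
  refine hcard.trans ?_
  have hfin : ((TgG D w s ×ˢ (TgG D w v ×ˢ TgG D w u)).card : ℝ) * B ≤
      ((∏ i, ∏ p ∈ (s i).primeFactors, (D.nr i.1 p : ℝ)) *
      ((∏ i, ∏ p ∈ (v i).primeFactors, (D.nr i.1 p : ℝ)) *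
        ∏ i, (D.c : ℝ) ^ (u i).primeFactors.card)) *
      (C * (X / (moG s v u : ℕ)) * (D.E z y *
      ((∏ i, ∏ p ∈ (s i).primeFactors, (p : ℝ) / ((p : ℝ) - D.c)) *
      (∏ i, ∏ p ∈ (v i).primeFactors, (p : ℝ) / ((p : ℝ) - D.c)) * gW))) := by
    apply mul_le_mul hTgle _ hB0 (le_trans (Nat.cast_nonneg _) hTgle)
    rw [hB]
    exact mul_le_mul_of_nonneg_left hWle (mul_nonneg hC (div_nonneg (Nat.cast_nonneg _)
      (Nat.cast_nonneg _)))
  refine hfin.trans (le_of_eq ?_)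
  exact fin_algG (fun i => dv_ne_zero (hs' i)) (fun i => dv_ne_zero (hv' i))
    (fun i => dv_ne_zero (hu' i))
    (fun i => gp_eqG i (hs' i) (fun p hp hpd => (g0.fs hp hpd).2.2.2))
    (fun i => gp_eqG i (hv' i) (fun p hp hpd => (g0.fv hp hpd).2.2)) C X gW _

end Pool.Agent.R421.HF
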