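import Pool.Agent.R421.HF.IsoC
import Pool.Agent.W214.RK.Half
import Pool.Agent.W261.RT.Iso

/-!
# Project HF: the rank of a curve with a rational 2-torsion point is at most the rank of the
2-isogenous curve
-/

set_option autoImplicit false
set_option linter.all false

namespace Pool.Agent.R421.HF

open WeierstrassCurve Pool.Agent.W262.RK
open Pool.Agent.TH841.SH.D (Pt)
open Pool.Agent.Y676.IS (Dat)

theorem finrank_le_of_ker {A B : Type} [AddCommGroup A] [AddCommGroup B] (hB : AddGroup.FG B)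
    (f : A →+ B) (hk : ∀ x, f x = 0 → ∃ n : ℕ, n ≠ 0 ∧ n • x = 0) :
    Module.finrank ℤ A ≤ Module.finrank ℤ B := by
  have : Module.Finite ℤ B := Module.Finite.iff_addGroup_fg.2 hB
  set g : A →ₗ[ℤ] B := f.toIntLinearMap with hg
  have h1 : Module.rank ℤ (LinearMap.ker g) = 0 := by
    rw [rank_eq_zero_iff]
    intro x
    obtain ⟨n, hn, hx⟩ := hk x.1 (by
      have := x.2
      rw [LinearMap.mem_ker] at this
      exact this)
    refine ⟨n, by exact_mod_cast hn, ?_⟩
    apply Subtype.ext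
    simpa using hx
  have h2 := LinearMap.rank_range_add_rank_ker g
  rw [h1, add_zero] at h2
  have h3 : Module.finrank ℤ A = Module.finrank ℤ (LinearMap.range g) := by
    unfold Module.finrank
    rw [h2]
  rw [h3]
  exact Submodule.finrank_le _

lemma bcQ (W : WeierstrassCurve ℚ) : W.baseChange ℚ = W := by
  have : algebraMap ℚ ℚ = RingHom.id ℚ := Subsingleton.elim _ _
  rw [WeierstrassCurve.baseChange, this]
  exact WeierstrassCurve.map_id W

lemma fr_aux (W W' : WeierstrassCurve ℚ) (h : W' = W) (d d' : DecidableEq ℚ) :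
    @Module.finrank ℤ W'.toAffine.Point _
      (@Affine.Point.instAddCommGroup ℚ _ W'.toAffine d').toAddCommMonoid
      (@AddCommGroup.toIntModule _ (@Affine.Point.instAddCommGroup ℚ _ W'.toAffine d')) =
    @Module.finrank ℤ W.toAffine.Point _
      (@Affine.Point.instAddCommGroup ℚ _ W.toAffine d).toAddCommMonoid
      (@AddCommGroup.toIntModule _ (@Affine.Point.instAddCommGroup ℚ _ W.toAffine d)) := by
  subst h
  have : d' = d := Subsingleton.elim _ _
  subst this
  rfl

lemma fr_pt (W : WeierstrassCurve ℚ) :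
    Module.finrank ℤ (Pt W ℚ) = Module.finrank ℤ W.toAffine.Point :=
  fr_aux W (W.baseChange ℚ) (bcQ W) inferInstance (Classical.decEq ℚ)

lemma fg_aux (W W' : WeierstrassCurve ℚ) (h : W' = W) (d d' : DecidableEq ℚ)
    (hf : @AddGroup.FG W.toAffine.Point
      (@Affine.Point.instAddCommGroup ℚ _ W.toAffine d).toAddGroup) :
    @AddGroup.FG W'.toAffine.Point
      (@Affine.Point.instAddCommGroup ℚ _ W'.toAffine d').toAddGroup := by
  subst h
  have : d' = d := Subsingleton.elim _ _
  subst this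
  exact hf

/-- the 2-isogeny and the rank -/
theorem rk_le {a b : ℚ} (hb : b ≠ 0) (hd : a ^ 2 - 4 * b ≠ 0) {W' : WeierstrassCurve ℚ}
    (hW' : W' = ⟨0, -2 * a, 0, a ^ 2 - 4 * b, 0⟩) (hfg : AddGroup.FG W'.toAffine.Point) :
    Module.finrank ℤ (⟨0, a, 0, b, 0⟩ : WeierstrassCurve ℚ).toAffine.Point ≤
      Module.finrank ℤ W'.toAffine.Point := by
  set W : WeierstrassCurve ℚ := ⟨0, a, 0, b, 0⟩ with hW
  have hK : IsoC.KDat W W' a b (-2 * a) (a ^ 2 - 4 * b) 1 :=
    { hW := hW
      hW' := hW'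
      dat := { hb := hb, hb' := hd, hu := one_ne_zero, e1 := by ring, e2 := by ring } }
  rw [← fr_pt W, ← fr_pt W']
  apply finrank_le_of_ker (fg_aux W' (W'.baseChange ℚ) (bcQ W') inferInstance
    (Classical.decEq ℚ) hfg) (IsoC.isoH ℚ hK)
  intro x hx
  refine ⟨2, two_ne_zero, ?_⟩
  rcases IsoC.isoH_ker ℚ hK x hx with h | ⟨h0, h⟩
  · rw [h, smul_zero]
  · rw [two_nsmul, h]
    have h1 : (0 : ℚ) = (W.baseChange ℚ).toAffine.negY 0 0 := by
      rw [bcQ W, hW]
      simp [Affine.negY]
    exact @Affine.Point.add_self_of_Y_eq ℚ _ _ (Classical.decEq ℚ) _ _ _ h1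

end Pool.Agent.R421.HF
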