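import Pool.Agent.R421.HF.Desc5
import Pool.Agent.W571.RT.Rank2
import Pool.Agent.Y474.Z8.RNK
import Pool.Agent.R421.UR.MdlT

/-!
# Project HF: the bound of the rank by the local count, with primes without a contribution
-/

set_option autoImplicit false
set_option linter.all false

namespace Pool.Agent.R421.HF

open Finset Pool.Agent.W262.RK Pool.Agent.W307.RT Pool.Agent.TH841.PT

variable {J : Type} [Fintype J] [DecidableEq J]

/-- the part of the value `f i.1` composed of the primes `p > z` of the type `i.2` -/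
noncomputable def prv (ty : J → ℕ → Option Ty) (z : ℕ) (f : J → ℤ) (i : J × Ty) : ℤ :=
  (partN (f i.1).natAbs (fun p => z < p ∧ ty i.1 p = some i.2) : ℕ)

section

variable {ty : J → ℕ → Option Ty} {z : ℕ} {f : J → ℤ}

lemma prv_pow (h0 : ∀ j, f j ≠ 0) (i : J × Ty) {p : ℕ} (hp : p.Prime)
    (hz : z < p) {k : ℕ} (hk : k ≠ 0) : (p : ℤ) ^ k ∣ prv ty z f i ↔
      (p : ℤ) ^ k ∣ f i.1 ∧ ty i.1 p = some i.2 := by
  have h1 : ∀ x : ℤ, (p : ℤ) ^ k ∣ x ↔ p ^ k ∣ x.natAbs := by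
    intro x
    rw [← Int.natCast_dvd]
    push_cast
    rfl
  unfold prv
  rw [h1, h1, Int.natAbs_natCast]
  by_cases hty : ty i.1 p = some i.2
  · rw [partN_pow (Int.natAbs_ne_zero.2 (h0 _)) hp ⟨hz, hty⟩]
    exact ⟨fun h2 => ⟨h2, hty⟩, fun h2 => h2.1⟩
  · constructor
    · intro h2
      exact absurd (partN_of hp ((dvd_pow_self p hk).trans h2)).2 hty
    · intro h2
      exact absurd h2.2 hty

lemma prv_dvd (h0 : ∀ j, f j ≠ 0) (i : J × Ty) {p : ℕ}
    (hp : p.Prime) (hz : z < p) : (p : ℤ) ∣ prv ty z f i ↔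
      (p : ℤ) ∣ f i.1 ∧ ty i.1 p = some i.2 := by
  have := prv_pow (ty := ty) h0 i hp hz one_ne_zero
  rwa [pow_one] at this

lemma prv_of (h0 : ∀ j, f j ≠ 0) (i : J × Ty) {p : ℕ}
    (hp : p.Prime) (h : (p : ℤ) ∣ prv ty z f i) : z < p ∧ (p : ℤ) ∣ f i.1 ∧
      ty i.1 p = some i.2 := by
  have hz : z < p := by
    unfold prv at h
    rw [Int.natCast_dvd_natCast] at h
    exact (partN_of hp h).1
  exact ⟨hz, (prv_dvd h0 i hp hz).1 h⟩

lemma prv_ne (i : J × Ty) : prv ty z f i ≠ 0 := by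
  unfold prv
  exact_mod_cast partN_ne _ _

lemma prv_Gd (h0 : ∀ j, f j ≠ 0)
    (hun : ∀ p : ℕ, p.Prime → z < p → ∀ j l, (p : ℤ) ∣ f j → (p : ℤ) ∣ f l → j = l) :
    Gd z (prv ty z f) := by
  refine ⟨fun i => prv_ne i, fun p hp hzp i i' hii' => ?_⟩
  rintro ⟨h1, h2⟩
  have e1 := prv_of h0 i hp h1
  have e2 := prv_of h0 i' hp h2
  apply hii'
  have hj := hun p hp hzp _ _ e1.2.1 e2.2.1
  refine Prod.ext hj ?_
  have h3 : some i.2 = some i'.2 := by
    rw [← e1.2.2, ← e2.2.2, hj]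
  exact Option.some.inj h3

end

lemma NBA_eq (cls : J → Fin 4) (hcls : ∀ j, cls j ≠ 3) (α : ℝ) (s : J × Ty → ℕ) :
    Pool.Agent.R421.UR.NBA α (clsI cls) eI s =
      (NL (∏ j, s j) (LTs (clsI cls) eI s ∅) : ℝ) ^ α := by
  have h : P3 (clsI cls) s = ∅ := by
    unfold P3
    have h1 : univ.filter (fun j : J × Ty => clsI cls j = 3) = ∅ := by
      rw [filter_eq_empty_iff]
      intro i _
      exact hcls i.1
    rw [h1, prod_empty]
    exact Nat.primeFactors_one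
  unfold Pool.Agent.R421.UR.NBA
  rw [h, card_empty, pow_zero, one_mul, powerset_empty, sum_singleton]

/-- the number of the primes outside `S1` -/
lemma bad5 {ty : J → ℕ → Option Ty} {f : J → ℤ} {A B : ℤ} {z y D : ℕ}
    (hzy : z < y) (h0 : ∀ j, f j ≠ 0)
    (hbad : ∀ p : ℕ, p.Prime → z < p → (p : ℤ) ∣ 2 * A * B * (A - B) → ∃ j, (p : ℤ) ∣ f j)
    (hsz : ∀ j, (f j).natAbs < (y + 1) ^ D) (Nt : ℕ → Prop) [DecidablePred Nt]
    (hNt : ∀ p : ℕ, p.Prime → z < p → ∀ j, (p : ℤ) ∣ f j → ty j p = none → Nt p) :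
    ((2 * A * B * (A - B)).natAbs.primeFactors.filter
        (fun q => ¬ q ∣ ∏ i, S1 z y (prv ty z f) i ∧ ¬ Nt q)).card ≤
      z + Fintype.card J * D + ∑ i, (S2 z y (prv ty z f) i).primeFactors.card := by
  have hsub : ((2 * A * B * (A - B)).natAbs.primeFactors.filter
        (fun q => ¬ q ∣ ∏ i, S1 z y (prv ty z f) i ∧ ¬ Nt q)) ⊆
      ((Icc 1 z) ∪ univ.biUnion (fun j => (f j).natAbs.primeFactors.filter (y < ·))) ∪
        univ.biUnion (fun i => (S2 z y (prv ty z f) i).primeFactors) := by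
    intro q hq
    rw [mem_filter] at hq
    have hp := Nat.prime_of_mem_primeFactors hq.1
    have hdv := Nat.dvd_of_mem_primeFactors hq.1
    rw [mem_union, mem_union, mem_Icc]
    rcases Nat.lt_or_ge z q with h | h
    swap
    · exact Or.inl (Or.inl ⟨hp.one_lt.le, h⟩)
    · have hdv2 : (q : ℤ) ∣ 2 * A * B * (A - B) := Int.natCast_dvd.2 hdv
      obtain ⟨l, hl⟩ := hbad q hp h hdv2
      rcases Nat.lt_or_ge y q with hyq | hyq
      · left; right
        rw [mem_biUnion]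
        refine ⟨l, mem_univ _, ?_⟩
        rw [mem_filter, Nat.mem_primeFactors]
        exact ⟨⟨hp, Int.natCast_dvd.1 hl, Int.natAbs_ne_zero.2 (h0 l)⟩, hyq⟩
      · right
        have hPS : q ∈ PS z y := mem_PS.2 ⟨⟨h, hyq⟩, hp⟩
        rcases hty : ty l q with _ | θ
        · exact absurd (hNt q hp h l hl hty) hq.2.2
        rw [mem_biUnion]
        refine ⟨(l, θ), mem_univ _, ?_⟩
        have hl' : (q : ℤ) ∣ prv ty z f (l, θ) := (prv_dvd h0 _ hp h).2 ⟨hl, hty⟩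
        have hsq : (q : ℤ) ^ 2 ∣ prv ty z f (l, θ) := by
          by_contra hcon
          apply hq.2.1
          refine dvd_trans ?_ (dvd_prod_of_mem _ (mem_univ (l, θ)))
          exact dvd_prod_of_mem _ (mem_filter.2 ⟨hPS, hl', hcon⟩)
        rw [Nat.mem_primeFactors]
        refine ⟨hp, dvd_prod_of_mem _ (mem_filter.2 ⟨hPS, hsq⟩), ?_⟩
        exact prod_ne_zero_iff.2 fun p hp => (mem_PS.1 (mem_filter.1 hp).1).2.ne_zero
  have hone : ∀ j, ((f j).natAbs.primeFactors.filter (y < ·)).card ≤ D := by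
    intro j
    set S := (f j).natAbs.primeFactors.filter (y < ·) with hS
    have h1 : (y + 1) ^ S.card ≤ ∏ q ∈ S, q :=
      Finset.pow_card_le_prod _ _ _ (fun q hq => by
        have := (mem_filter.1 hq).2
        omega)
    have h2 : ∏ q ∈ S, q ∣ (f j).natAbs :=
      (prod_dvd_prod_of_subset _ _ _ (filter_subset _ _)).trans (Nat.prod_primeFactors_dvd _)
    have h3 : ∏ q ∈ S, q ≤ (f j).natAbs :=
      Nat.le_of_dvd (Nat.pos_of_ne_zero (Int.natAbs_ne_zero.2 (h0 j))) h2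
    have h4 : (y + 1) ^ S.card < (y + 1) ^ D := (h1.trans h3).trans_lt (hsz j)
    exact ((Nat.pow_lt_pow_iff_right (by omega)).1 h4).le
  refine (card_le_card hsub).trans ((card_union_le _ _).trans (add_le_add
    ((card_union_le _ _).trans (add_le_add ?_ ?_)) card_biUnion_le))
  · simp
  · refine card_biUnion_le.trans ?_
    refine (sum_le_sum fun j _ => hone j).trans ?_
    rw [sum_const, card_univ, smul_eq_mul]

/-- The bound of the rank by the local count. -/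
theorem rnk5 {cls : J → Fin 4} (hcls : ∀ j, cls j ≠ 3) {ty : J → ℕ → Option Ty} {f : J → ℤ}
    {A B : ℤ} {z y D : ℕ} (hz : 2 ≤ z) (hzy : z < y) (h0 : ∀ j, f j ≠ 0)
    (hA0 : A ≠ 0) (hB0 : B ≠ 0) (hAB : A ≠ B)
    (hun : ∀ p : ℕ, p.Prime → z < p → ∀ j l, (p : ℤ) ∣ f j → (p : ℤ) ∣ f l → j = l)
    (hloc : ∀ p : ℕ, p.Prime → z < p → ∀ j θ, (p : ℤ) ∣ f j → ¬ (p : ℤ) ^ 2 ∣ f j →
      ty j p = some θ → ∃ k : ℤ, ¬ (p : ℤ) ∣ k ∧ LocM (cls j) k p A B ∧ sg0 p k = θ 0)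
    (hneu : ∀ p : ℕ, p.Prime → z < p → ∀ j, (p : ℤ) ∣ f j → ty j p = none →
      NeuM (cls j) p A B)
    (hbad : ∀ p : ℕ, p.Prime → z < p → (p : ℤ) ∣ 2 * A * B * (A - B) → ∃ j, (p : ℤ) ∣ f j)
    (hsz : ∀ j, (f j).natAbs < (y + 1) ^ D) :
    (2 : ℝ) ^ Module.finrank ℤ (EAB A B).toAffine.Point ≤
      4 ^ (z + Fintype.card J * D + 2) *
        4 ^ (∑ i, (S2 z y (prv ty z f) i).primeFactors.card) *
        (NL (∏ i, S1 z y (prv ty z f) i)
          (LTs (clsI cls) eI (S1 z y (prv ty z f)) ∅) : ℝ) := by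
  classical
  set g := prv ty z f with hg
  set s := S1 z y g with hs
  have hmem : s ∈ Tup (J × Ty) z y := by
    apply Pool.Agent.W571.RT.S1_mem
    rintro p hp hzp i i' hii' ⟨h1, h2⟩
    exact (prv_Gd h0 hun).2 p hp hzp i i' hii' ⟨h1, h2⟩
  have hmd : ∏ i, s i ∣ PP z y := Pool.Agent.W262.RK.Tup_prod_dvd hmem
  have hPSof : ∀ p : ℕ, p.Prime → p ∣ ∏ i, s i → p ∈ PS z y := fun p hp h =>
    (prime_dvd_PP hp).1 (h.trans hmd)
  have hodd2 : ∀ p : ℕ, p.Prime → p ∣ ∏ i, s i → 2 < p := by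
    intro p hp h
    have h1 := (mem_PS.1 (hPSof p hp h)).1.1
    omega
  have hcI : ∀ i : J × Ty, clsI cls i ≠ 3 := fun i => hcls i.1
  have hlocm : LOCM := Pool.Agent.W571.RT.locm
  obtain ⟨Nt, hNt⟩ : ∃ Nt : ℕ → Prop, ∀ p, Nt p ↔ (z < p ∧ ∃ j, (p : ℤ) ∣ f j ∧ ty j p = none) :=
    ⟨_, fun p => Iff.rfl⟩
  have hd := desc5 (∏ i, s i) (LTs (clsI cls) eI s ∅) A B Nt hA0 hB0 hAB
    (by
      rw [← Nat.not_even_iff_odd, even_iff_two_dvd]
      intro h
      exact absurd (hodd2 2 Nat.prime_two h) (by norm_num))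
    ((PP_squarefree z y).squarefree_of_dvd hmd)
    (fun p hp hpd => ⟨fun i hi => (Pool.Agent.Y474.Z8.LT_xc (hcI i) (eI i) _ _).1,
      fun a1 b1 c1 d1 a2 b2 c2 d2 e1 e2 i hi =>
        (Pool.Agent.Y474.Z8.LT_xc (hcI i) (eI i) _ _).2 a1 b1 c1 d1 a2 b2 c2 d2 (e1 i hi)
          (e2 i hi)⟩)
    (fun p hp hpd x x' hx' hcurve e1 e2 he1 he2 hsq1 hsq2 i hi => by
      have hpp : p.Prime := Fact.out
      have his := (Pool.Agent.W571.RT.S1_dvd_iff hpp).1 hi
      have hzp := (mem_PS.1 his.1).1.1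
      have h2p : 2 < p := hodd2 p hpp hpd
      have h1 := his.2.1
      rw [hg, prv_dvd h0 i hpp hzp] at h1
      have h2 : ¬ (p : ℤ) ^ 2 ∣ f i.1 := by
        intro h3
        apply his.2.2
        rw [hg, prv_pow h0 i hpp hzp two_ne_zero]
        exact ⟨h3, h1.2⟩
      obtain ⟨k, hκ, h3, h4⟩ := hloc p hpp hzp i.1 i.2 h1.1 h2 h1.2
      have hfin := hlocm (clsI cls i) k p A B (hcI i)
        (by omega) hκ hA0 hB0 hAB h3 x x' hx' hcurve e1 e2 he1 he2 hsq1 hsq2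
      have hdec : decide (p ∈ (∅ : Finset ℕ)) = false := by simp
      rw [hdec]
      exact Pool.Agent.Y474.Z8.LT_of_LL (hcI i) h4 hfin)
    (fun p hp hN x x' hx' hcurve => by
      obtain ⟨hzp, j, hj, hty⟩ := (hNt p).1 hN
      exact neum (by omega) hA0 hB0 hAB (hneu p hp.out hzp j hj hty) x x' hx' hcurve)
  have hc := bad5 (ty := ty) hzy h0 hbad hsz Nt
    (fun p hp hzp j hj hty => (hNt p).2 ⟨hzp, j, hj, hty⟩)
  rw [← hg, ← hs] at hc
  have h1 : (2 : ℝ) ^ Module.finrank ℤ (EAB A B).toAffine.Point ≤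
      4 ^ (((2 * A * B * (A - B)).natAbs.primeFactors.filter
        (fun q => ¬ q ∣ ∏ i, s i ∧ ¬ Nt q)).card + 2) *
          (NL (∏ i, s i) (LTs (clsI cls) eI s ∅) : ℝ) := by
    have h2 : (((2 ^ Module.finrank ℤ (EAB A B).toAffine.Point : ℕ)) : ℝ) ≤ _ :=
      Nat.cast_le.2 hd
    push_cast at h2
    convert h2 using 2
  refine h1.trans (mul_le_mul_of_nonneg_right ?_ (Nat.cast_nonneg _))
  rw [← pow_add]
  exact pow_le_pow_right₀ (by norm_num) (by omega)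

end Pool.Agent.R421.HF
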